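import Pool.Agent.Helper37K9.Snark.Color

set_option autoImplicit false
set_option linter.unusedSimpArgs false

namespace Pool.Agent.Helper37K9.Snark

/-- adjacency of the Petersen graph minus a path with three vertices -/
def bA (v w : Fin 7) : ℕ := ((![6, 25, 97, 34, 66, 12, 20] v : ℕ).testBit w).toNat

/-- The Petersen graph minus a path with three vertices. -/
def base : MP where
  V := Fin 7
  fin := inferInstance
  dec := inferInstance
  A := bA
  r := 0
  e := ![3, 6, 4, 5]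
  word := ![[], [false], [true], [false, false], [false, true], [true, false], [true, true]]

theorem b_cut : ∀ a b c d e f g : Bool,
    2 ≤ (∑ v : Fin 7, (![a, b, c, d, e, f, g] v).toNat) →
    4 ≤ (∑ v : Fin 7, ∑ w : Fin 7, if ![a, b, c, d, e, f, g] v = true ∧
      ![a, b, c, d, e, f, g] w = false then bA v w else 0) +
      (a.toNat + d.toNat + g.toNat + e.toNat + f.toNat) := by
  decide +kernel

theorem vec7 (x : Fin 7 → Bool) : x = ![x 0, x 1, x 2, x 3, x 4, x 5, x 6] := by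
  funext i
  fin_cases i <;> rfl

theorem b_symm : ∀ v w : Fin 7, bA v w = bA w v := by decide +kernel
theorem b_irr : ∀ v : Fin 7, bA v v = 0 := by decide +kernel
theorem b_le : ∀ v w : Fin 7, bA v w ≤ 1 := by decide +kernel
theorem b_inj : Function.Injective (![3, 6, 4, 5] : Fin 4 → Fin 7) := by decide +kernel
theorem b_ne : ∀ i : Fin 4, (![3, 6, 4, 5] : Fin 4 → Fin 7) i ≠ 0 := by decide +kernel
theorem b_deg : ∀ v : Fin 7, (∑ w, bA v w) + ((if v = 0 then 1 else 0) + (if v = 3 then 1 else 0)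
    + (if v = 6 then 1 else 0) + (if v = 4 then 1 else 0) + (if v = 5 then 1 else 0)) = 3 := by
  decide +kernel
theorem b_tri : ∀ a b c : Fin 7, bA a b = 1 → bA b c = 1 → bA c a = 1 → False := by
  decide +kernel
theorem b_quad : ∀ a b c d : Fin 7, bA a b = 1 → bA b c = 1 → bA c d = 1 → bA d a = 1 →
    a ≠ c → b ≠ d → False := by
  decide +kernel

/-- the words of the vertices -/
def bw : Fin 7 → List Bool :=
  ![[], [false], [true], [false, false], [false, true], [true, false], [true, true]]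

theorem bw_inj : Function.Injective bw := by
  have : ∀ v w : Fin 7, bw v = bw w → v = w := by decide +kernel
  exact fun v w h => this v w h

theorem bw_len : ∀ v : Fin 7, (bw v).length ≤ 2 := by decide +kernel

theorem bw_tree : ∀ (v w : Fin 7) (b : Bool), bw w = bw v ++ [b] → bA v w = 1 := by
  decide +kernel

theorem bw_surj (l : List Bool) (hl : l.length ≤ 2) : ∃ v, bw v = l := by
  rcases l with _ | ⟨a, _ | ⟨b, _ | ⟨c, l⟩⟩⟩
  · exact ⟨0, rfl⟩
  · cases a
    · exact ⟨1, rfl⟩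
    · exact ⟨2, rfl⟩
  · cases a <;> cases b
    · exact ⟨3, rfl⟩
    · exact ⟨4, rfl⟩
    · exact ⟨5, rfl⟩
    · exact ⟨6, rfl⟩
  · simp at hl

theorem base_good : base.Good 2 where
  symm := b_symm
  irr := b_irr
  le_one := b_le
  inj := b_inj
  ne_r := b_ne
  deg := b_deg
  tri := b_tri
  quad := b_quad
  n01 := by decide +kernel
  n23 := by decide +kernel
  cut4 := by
    intro (x : Fin 7 → Bool) hx
    have h := b_cut (x 0) (x 1) (x 2) (x 3) (x 4) (x 5) (x 6)
    rw [← vec7 x] at h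
    exact h hx
  winj := bw_inj
  wsurj := bw_surj
  wlen := bw_len
  wtree := bw_tree
  wr := rfl
  wend := by decide +kernel

theorem base_dec : ∀ α β : Fin 3, α ≠ β → ∀ ρ : Fin 3, α ≠ ρ → β ≠ ρ → ∀ p q : Fin 3, α ≠ p → α ≠ q →
    p ≠ q → ∀ p' q' : Fin 3, β ≠ p' → β ≠ q' → p' ≠ q' → ∀ m : Fin 3, p ≠ m → m ≠ p' →
    ∀ n : Fin 3, q ≠ n → n ≠ q' → ∀ x0 : Fin 3, p ≠ x0 → m ≠ x0 → ∀ x1 : Fin 3, q' ≠ x1 → n ≠ x1 →
    ∀ x2 : Fin 3, q ≠ x2 → n ≠ x2 → ∀ x3 : Fin 3, p' ≠ x3 → m ≠ x3 → N5 ρ x0 x1 x2 x3 := by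
  decide +kernel

theorem base_NType : base.NType := by
  intro (c : Fin 7 → Fin 7 → Fin 3) ρ x h
  have hs : ∀ v w : Fin 7, c v w = c w v := h.symm
  have hp : ∀ v w w' : Fin 7, bA v w = 1 → bA v w' = 1 → w ≠ w' → c v w ≠ c v w' := h.proper
  have hr : ∀ w : Fin 7, bA 0 w = 1 → c 0 w ≠ ρ := h.root
  have he0 : ∀ w : Fin 7, bA 3 w = 1 → c 3 w ≠ x 0 := h.ends 0
  have he1 : ∀ w : Fin 7, bA 6 w = 1 → c 6 w ≠ x 1 := h.ends 1
  have he2 : ∀ w : Fin 7, bA 4 w = 1 → c 4 w ≠ x 2 := h.ends 2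
  have he3 : ∀ w : Fin 7, bA 5 w = 1 → c 5 w ≠ x 3 := h.ends 3
  refine base_dec (c 0 1) (c 0 2) ?_ ρ ?_ ?_ (c 1 3) (c 1 4) ?_ ?_ ?_ (c 2 5) (c 2 6) ?_ ?_ ?_
    (c 3 5) ?_ ?_ (c 4 6) ?_ ?_ (x 0) ?_ ?_ (x 1) ?_ ?_ (x 2) ?_ ?_ (x 3) ?_ ?_
  · exact hp 0 1 2 (by decide +kernel) (by decide +kernel) (by decide)
  · exact hr 1 (by decide +kernel)
  · exact hr 2 (by decide +kernel)
  · rw [hs 0 1]; exact hp 1 0 3 (by decide +kernel) (by decide +kernel) (by decide)
  · rw [hs 0 1]; exact hp 1 0 4 (by decide +kernel) (by decide +kernel) (by decide)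
  · exact hp 1 3 4 (by decide +kernel) (by decide +kernel) (by decide)
  · rw [hs 0 2]; exact hp 2 0 5 (by decide +kernel) (by decide +kernel) (by decide)
  · rw [hs 0 2]; exact hp 2 0 6 (by decide +kernel) (by decide +kernel) (by decide)
  · exact hp 2 5 6 (by decide +kernel) (by decide +kernel) (by decide)
  · rw [hs 1 3]; exact hp 3 1 5 (by decide +kernel) (by decide +kernel) (by decide)
  · rw [hs 3 5, hs 2 5]; exact hp 5 3 2 (by decide +kernel) (by decide +kernel) (by decide)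
  · rw [hs 1 4]; exact hp 4 1 6 (by decide +kernel) (by decide +kernel) (by decide)
  · rw [hs 4 6, hs 2 6]; exact hp 6 4 2 (by decide +kernel) (by decide +kernel) (by decide)
  · rw [hs 1 3]; exact he0 1 (by decide +kernel)
  · exact he0 5 (by decide +kernel)
  · rw [hs 2 6]; exact he1 2 (by decide +kernel)
  · rw [hs 4 6]; exact he1 4 (by decide +kernel)
  · rw [hs 1 4]; exact he2 1 (by decide +kernel)
  · exact he2 6 (by decide +kernel)
  · rw [hs 2 5]; exact he3 2 (by decide +kernel)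
  · rw [hs 3 5]; exact he3 3 (by decide +kernel)

/-- a multipole of depth `n`, of one of the two kinds -/
theorem exists_mp (k : ℕ) :
    (∃ M : MP, M.Good (2 + 2 * k) ∧ M.NType) ∧
    (∃ M : MP, M.Good (3 + 2 * k) ∧ M.AType ∧ ∀ i j, M.A (M.e i) (M.e j) = 0) := by
  induction k with
  | zero =>
    exact ⟨⟨base, base_good, base_NType⟩,
      ⟨base.glue, glue_good base_good, glue_AType base_good base_NType, glue_nadj base_good⟩⟩
  | succ k ih =>
    obtain ⟨-, M, hM, hA, hn⟩ := ih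
    have h1 : (M.relabel sw).Good (3 + 2 * k) := relabel_good hM sw (hn _ _) (hn _ _)
    have h2 : (M.relabel sw).glue.Good (3 + 2 * k + 1) := glue_good h1
    have h3 : M.glue2.Good (3 + 2 * k + 1) :=
      relabel_good h2 cy (glue_nadj h1 _ _) (glue_nadj h1 _ _)
    have h4 : M.glue2.NType := glue2_NType h1 hA
    refine ⟨⟨M.glue2, by rw [show 2 + 2 * (k + 1) = 3 + 2 * k + 1 by ring]; exact h3, h4⟩,
      ⟨M.glue2.glue, ?_, glue_AType h3 h4, glue_nadj h3⟩⟩
    have := glue_good h3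
    rw [show 3 + 2 * (k + 1) = 3 + 2 * k + 1 + 1 by ring]
    exact this

end Pool.Agent.Helper37K9.Snark
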