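import Mathlib

/-!
Multipoles with five semiedges whose vertices are the nodes of a perfect binary tree.
-/

set_option autoImplicit false

namespace Pool.Agent.Helper37K9.Snark

/-- A multipole: a finite graph (adjacency numbers `A`), a root and four ends; the root and the ends
carry one semiedge each; the vertices are named by words. -/
structure MP where
  V : Type
  fin : Fintype V
  dec : DecidableEq V
  A : V → V → ℕ
  r : V
  e : Fin 4 → V
  word : V → List Bool

attribute [instance] MP.fin MP.dec

/-- number of edges leaving the set `x` -/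
def MP.cut (M : MP) (x : M.V → Bool) : ℕ :=
  ∑ v, ∑ w, if x v = true ∧ x w = false then M.A v w else 0

/-- number of semiedges at the set `x` -/
def MP.sem (M : MP) (x : M.V → Bool) : ℕ :=
  (x M.r).toNat + (x (M.e 0)).toNat + (x (M.e 1)).toNat + (x (M.e 2)).toNat + (x (M.e 3)).toNat

/-- cardinality -/
def MP.size (M : MP) (x : M.V → Bool) : ℕ := ∑ v, (x v).toNat

/-- structural properties; `n` is the depth of the tree -/
structure MP.Good (M : MP) (n : ℕ) : Prop where
  symm : ∀ v w, M.A v w = M.A w v
  irr : ∀ v, M.A v v = 0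
  le_one : ∀ v w, M.A v w ≤ 1
  inj : Function.Injective M.e
  ne_r : ∀ i, M.e i ≠ M.r
  deg : ∀ v, (∑ w, M.A v w) + ((if v = M.r then 1 else 0) + (if v = M.e 0 then 1 else 0)
    + (if v = M.e 1 then 1 else 0) + (if v = M.e 2 then 1 else 0) + (if v = M.e 3 then 1 else 0)) = 3
  tri : ∀ a b c, M.A a b = 1 → M.A b c = 1 → M.A c a = 1 → False
  quad : ∀ a b c d, M.A a b = 1 → M.A b c = 1 → M.A c d = 1 → M.A d a = 1 → a ≠ c → b ≠ d → False
  n01 : M.A (M.e 0) (M.e 1) = 0
  n23 : M.A (M.e 2) (M.e 3) = 0
  cut4 : ∀ x, 2 ≤ M.size x → 4 ≤ M.cut x + M.sem x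
  winj : Function.Injective M.word
  wsurj : ∀ l : List Bool, l.length ≤ n → ∃ v, M.word v = l
  wlen : ∀ v, (M.word v).length ≤ n
  wtree : ∀ v w b, M.word w = M.word v ++ [b] → M.A v w = 1
  wr : M.word M.r = []
  wend : ∀ i, (M.word (M.e i)).length = n

/-- A proper colouring of the edges and semiedges of `M` with three colours. -/
structure MP.Col (M : MP) (c : M.V → M.V → Fin 3) (ρ : Fin 3) (x : Fin 4 → Fin 3) : Prop where
  symm : ∀ v w, c v w = c w v
  proper : ∀ v w w', M.A v w = 1 → M.A v w' = 1 → w ≠ w' → c v w ≠ c v w'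
  root : ∀ w, M.A M.r w = 1 → c M.r w ≠ ρ
  ends : ∀ i w, M.A (M.e i) w = 1 → c (M.e i) w ≠ x i

/-- The colours of the five semiedges of a negator with the pairs `{0, 1}`, `{2, 3}`. -/
def N5 (ρ a b c d : Fin 3) : Prop :=
  (a = b ∧ c ≠ d ∧ ρ ≠ c ∧ ρ ≠ d) ∨ (c = d ∧ a ≠ b ∧ ρ ≠ a ∧ ρ ≠ b)

instance (ρ a b c d : Fin 3) : Decidable (N5 ρ a b c d) := by unfold N5; infer_instance

/-- The colours of the five semiedges of a multipole of the second kind with the pairs
`{0, 1}`, `{2, 3}`. -/
def A5 (ρ a b c d : Fin 3) : Prop :=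
  a ≠ b ∧ c ≠ d ∧ (a = ρ ∨ b = ρ) ∧ (c = ρ ∨ d = ρ) ∧ ¬ (a = c ∧ b = d) ∧ ¬ (a = d ∧ b = c)

instance (ρ a b c d : Fin 3) : Decidable (A5 ρ a b c d) := by unfold A5; infer_instance

def MP.NType (M : MP) : Prop := ∀ c ρ x, M.Col c ρ x → N5 ρ (x 0) (x 1) (x 2) (x 3)
def MP.AType (M : MP) : Prop := ∀ c ρ x, M.Col c ρ x → A5 ρ (x 0) (x 1) (x 2) (x 3)

/-- change of the order of the ends -/
def MP.relabel (M : MP) (s : Equiv.Perm (Fin 4)) : MP :=
  { M with e := fun i => M.e (s i) }

/-- the adjacency numbers of the edges between two copies -/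
def MP.J (M : MP) (v w : M.V) : ℕ :=
  (if v = M.e 2 then (if w = M.e 0 then 1 else 0) else 0) +
    (if v = M.e 3 then (if w = M.e 1 then 1 else 0) else 0)

/-- adjacency in the composite -/
def MP.gA (M : MP) : Option (Bool × M.V) → Option (Bool × M.V) → ℕ
  | none, none => 0
  | none, some (_, v) => if v = M.r then 1 else 0
  | some (_, v), none => if v = M.r then 1 else 0
  | some (false, v), some (false, w) => M.A v w
  | some (true, v), some (true, w) => M.A v w
  | some (false, v), some (true, w) => M.J v w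
  | some (true, w), some (false, v) => M.J v w

/-- two copies of `M`, the ends `2`, `3` of the first joined to the ends `0`, `1` of the second, and
a new root joined to the roots -/
def MP.glue (M : MP) : MP where
  V := Option (Bool × M.V)
  fin := inferInstance
  dec := inferInstance
  A := M.gA
  r := none
  e := ![some (false, M.e 0), some (false, M.e 1), some (true, M.e 2), some (true, M.e 3)]
  word := fun v => match v with
    | none => []
    | some (b, v) => b :: M.word v

end Pool.Agent.Helper37K9.Snark
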