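import Pool.Agent.Helper37K9.Snark.Good

set_option autoImplicit false
set_option linter.unusedSimpArgs false

namespace Pool.Agent.Helper37K9.Snark

variable {M : MP} {n : ℕ}

theorem J_pos (M : MP) (hM : M.Good n) : M.J (M.e 2) (M.e 0) = 1 ∧ M.J (M.e 3) (M.e 1) = 1 := by
  have h23 := e_ne hM (show (2 : Fin 4) ≠ 3 by decide)
  constructor
  · simp [MP.J, h23]
  · simp [MP.J, h23.symm]

theorem col_glue (hM : M.Good n) {c : Option (Bool × M.V) → Option (Bool × M.V) → Fin 3}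
    {ρ : Fin 3} {x : Fin 4 → Fin 3} (h : M.glue.Col c ρ x) :
    ∃ ρ0 ρ1 y2 y3 : Fin 3, ρ0 ≠ ρ ∧ ρ1 ≠ ρ ∧ ρ0 ≠ ρ1 ∧
      M.Col (fun v w => c (some (false, v)) (some (false, w))) ρ0 ![x 0, x 1, y2, y3] ∧
      M.Col (fun v w => c (some (true, v)) (some (true, w))) ρ1 ![y2, y3, x 2, x 3] := by
  obtain ⟨J1, J2⟩ := J_pos M hM
  have hsymm : ∀ v w : Option (Bool × M.V), c v w = c w v := h.symm
  have hprop : ∀ v w w' : Option (Bool × M.V), M.gA v w = 1 → M.gA v w' = 1 → w ≠ w' →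
    c v w ≠ c v w' := h.proper
  have hroot : ∀ w : Option (Bool × M.V), M.gA none w = 1 → c none w ≠ ρ := h.root
  have he0 : ∀ w : Option (Bool × M.V), M.gA (some (false, M.e 0)) w = 1 →
    c (some (false, M.e 0)) w ≠ x 0 := h.ends 0
  have he1 : ∀ w : Option (Bool × M.V), M.gA (some (false, M.e 1)) w = 1 →
    c (some (false, M.e 1)) w ≠ x 1 := h.ends 1
  have he2 : ∀ w : Option (Bool × M.V), M.gA (some (true, M.e 2)) w = 1 →
    c (some (true, M.e 2)) w ≠ x 2 := h.ends 2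
  have he3 : ∀ w : Option (Bool × M.V), M.gA (some (true, M.e 3)) w = 1 →
    c (some (true, M.e 3)) w ≠ x 3 := h.ends 3
  have hrt : ∀ b, M.gA none (some (b, M.r)) = 1 := fun b => by
    cases b <;> simp [MP.gA]
  have hrt' : ∀ b, M.gA (some (b, M.r)) none = 1 := fun b => by
    cases b <;> simp [MP.gA]
  have inner : ∀ b v w, M.A v w = 1 → M.gA (some (b, v)) (some (b, w)) = 1 := fun b v w h => by
    cases b <;> exact h
  clear h
  refine ⟨c none (some (false, M.r)), c none (some (true, M.r)),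
    c (some (false, M.e 2)) (some (true, M.e 0)), c (some (false, M.e 3)) (some (true, M.e 1)),
    hroot _ (hrt false), hroot _ (hrt true), hprop none _ _ (hrt false) (hrt true) (by simp),
    ⟨fun v w => hsymm _ _, ?_, ?_, ?_⟩, ⟨fun v w => hsymm _ _, ?_, ?_, ?_⟩⟩
  · intro v w w' h1 h2 hne
    exact hprop _ _ _ (inner _ _ _ h1) (inner _ _ _ h2) (fun e => hne (by simpa using e))
  · intro w hw
    rw [hsymm none]
    exact hprop _ _ _ (inner _ _ _ hw) (hrt' _) (by simp)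
  · intro i w hw
    fin_cases i
    · exact he0 (some (false, w)) (inner _ _ _ hw)
    · exact he1 (some (false, w)) (inner _ _ _ hw)
    · exact hprop (some (false, M.e 2)) _ _ (inner _ _ _ hw) J1 (by simp)
    · exact hprop (some (false, M.e 3)) _ _ (inner _ _ _ hw) J2 (by simp)
  · intro v w w' h1 h2 hne
    exact hprop _ _ _ (inner _ _ _ h1) (inner _ _ _ h2) (fun e => hne (by simpa using e))
  · intro w hw
    rw [hsymm none]
    exact hprop _ _ _ (inner _ _ _ hw) (hrt' _) (by simp)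
  · intro i w hw
    fin_cases i
    · show c (some (true, M.e 0)) (some (true, w)) ≠ c (some (false, M.e 2)) (some (true, M.e 0))
      rw [hsymm (some (false, M.e 2))]
      exact hprop (some (true, M.e 0)) _ _ (inner _ _ _ hw) J1 (by simp)
    · show c (some (true, M.e 1)) (some (true, w)) ≠ c (some (false, M.e 3)) (some (true, M.e 1))
      rw [hsymm (some (false, M.e 3))]
      exact hprop (some (true, M.e 1)) _ _ (inner _ _ _ hw) J2 (by simp)
    · exact he2 (some (true, w)) (inner _ _ _ hw)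
    · exact he3 (some (true, w)) (inner _ _ _ hw)

theorem dec_NA : ∀ ρ ρ0 : Fin 3, ρ0 ≠ ρ → ∀ ρ1 : Fin 3, ρ1 ≠ ρ → ρ0 ≠ ρ1 →
    ∀ x0 x1 y2 y3 : Fin 3, N5 ρ0 x0 x1 y2 y3 → ∀ x2 x3 : Fin 3, N5 ρ1 y2 y3 x2 x3 →
      A5 ρ x0 x1 x2 x3 := by
  decide +kernel

theorem dec_AN : ∀ ρ ρ0 : Fin 3, ρ0 ≠ ρ → ∀ ρ1 : Fin 3, ρ1 ≠ ρ → ρ0 ≠ ρ1 →
    ∀ x0 x1 y2 y3 : Fin 3, A5 ρ0 x0 y2 x1 y3 → ∀ x2 x3 : Fin 3, A5 ρ1 y2 x2 y3 x3 →
      N5 ρ x0 x3 x1 x2 := by
  decide +kernel

theorem glue_AType (hM : M.Good n) (hN : M.NType) : M.glue.AType := by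
  intro c ρ x h
  obtain ⟨ρ0, ρ1, y2, y3, h0, h1, h01, c0, c1⟩ := col_glue hM h
  exact dec_NA ρ ρ0 h0 ρ1 h1 h01 _ _ _ _ (hN _ _ _ c0) _ _ (hN _ _ _ c1)

theorem col_relabel {s : Equiv.Perm (Fin 4)} {c : M.V → M.V → Fin 3} {ρ : Fin 3}
    {x : Fin 4 → Fin 3} (h : (M.relabel s).Col c ρ x) : M.Col c ρ (fun i => x (s.symm i)) where
  symm := h.symm
  proper := h.proper
  root := h.root
  ends := by
    intro i w hw
    have := h.ends (s.symm i) w
    have e : (M.relabel s).e (s.symm i) = M.e i := by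
      show M.e (s (s.symm i)) = M.e i
      rw [Equiv.apply_symm_apply]
    rw [e] at this
    exact this hw

/-- exchange the ends `1` and `2` -/
def sw : Equiv.Perm (Fin 4) := ⟨![0, 2, 1, 3], ![0, 2, 1, 3], by decide, by decide⟩

/-- a cyclic change of the ends `1`, `2`, `3` -/
def cy : Equiv.Perm (Fin 4) := ⟨![0, 3, 1, 2], ![0, 2, 3, 1], by decide, by decide⟩

/-- the second kind of gluing -/
def MP.glue2 (M : MP) : MP := ((M.relabel sw).glue).relabel cy

theorem glue2_NType (hs : (M.relabel sw).Good n) (hA : M.AType) : M.glue2.NType := by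
  intro c ρ z h
  have h' := col_relabel h
  obtain ⟨ρ0, ρ1, y2, y3, h0, h1, h01, c0, c1⟩ := col_glue hs h'
  exact dec_AN ρ ρ0 h0 ρ1 h1 h01 _ _ _ _ (hA _ _ _ (col_relabel c0)) _ _
    (hA _ _ _ (col_relabel c1))

end Pool.Agent.Helper37K9.Snark
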