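import Pool.Agent.Helper37K9.Snark.Glue

set_option autoImplicit false
set_option linter.unusedSimpArgs false

namespace Pool.Agent.Helper37K9.Snark

variable {M : MP} {n : ℕ}

theorem deg_ge (hM : M.Good n) (v : M.V) : 2 ≤ ∑ w, M.A v w := by
  have h := hM.deg v
  by_cases a : v = M.r
  · have b : ∀ i, ¬ v = M.e i := fun i h => hM.ne_r i (h.symm.trans a)
    rw [if_pos a, if_neg (b 0), if_neg (b 1), if_neg (b 2), if_neg (b 3)] at h
    omega
  · by_cases b : ∃ i, v = M.e i
    · obtain ⟨i, hi⟩ := b
      have hj : ∀ j, j ≠ i → ¬ v = M.e j := fun j hji hj => hji (hM.inj (hj.symm.trans hi))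
      rw [if_neg a] at h
      fin_cases i
      · rw [if_pos (show v = M.e 0 from hi), if_neg (hj 1 (by decide)), if_neg (hj 2 (by decide)),
          if_neg (hj 3 (by decide))] at h
        omega
      · rw [if_pos (show v = M.e 1 from hi), if_neg (hj 0 (by decide)), if_neg (hj 2 (by decide)),
          if_neg (hj 3 (by decide))] at h
        omega
      · rw [if_pos (show v = M.e 2 from hi), if_neg (hj 0 (by decide)), if_neg (hj 1 (by decide)),
          if_neg (hj 3 (by decide))] at h
        omega
      · rw [if_pos (show v = M.e 3 from hi), if_neg (hj 0 (by decide)), if_neg (hj 1 (by decide)),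
          if_neg (hj 2 (by decide))] at h
        omega
    · push Not at b
      rw [if_neg a, if_neg (b 0), if_neg (b 1), if_neg (b 2), if_neg (b 3)] at h
      omega

theorem cut_compl (hM : M.Good n) (x : M.V → Bool) : M.cut (fun v => !x v) = M.cut x := by
  unfold MP.cut
  rw [Finset.sum_comm]
  refine Finset.sum_congr rfl fun v _ => Finset.sum_congr rfl fun w _ => ?_
  simp only [Bool.not_eq_true', Bool.not_eq_false']
  rw [hM.symm w v]
  simp only [and_comm]

theorem sem_compl (x : M.V → Bool) : M.sem (fun v => !x v) + M.sem x = 5 := by
  unfold MP.sem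
  simp only
  cases x M.r <;> cases x (M.e 0) <;> cases x (M.e 1) <;> cases x (M.e 2) <;> cases x (M.e 3) <;> rfl

theorem cut_single (hM : M.Good n) {v : M.V} {x : M.V → Bool} (hx : ∀ w, x w = true ↔ w = v) :
    2 ≤ M.cut x := by
  have h : M.cut x = ∑ w, M.A v w := by
    unfold MP.cut
    rw [Finset.sum_eq_single v]
    · refine Finset.sum_congr rfl fun w _ => ?_
      have hv : x v = true := (hx v).2 rfl
      by_cases hw : w = v
      · subst hw
        simp [hv, hM.irr]
      · have : x w = false := by
          by_contra h
          exact hw ((hx w).1 (by simpa using h))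
        simp [hv, this]
    · intro w _ hw
      have : x w = false := by
        by_contra h
        exact hw ((hx w).1 (by simpa using h))
      simp [this]
    · intro h
      exact absurd (Finset.mem_univ v) h
  rw [h]
  exact deg_ge hM v

theorem size_cases (x : M.V → Bool) :
    (∀ v, x v = false) ∨ (∃ v, ∀ w, x w = true ↔ w = v) ∨ 2 ≤ M.size x := by
  by_cases h0 : ∀ v, x v = false
  · exact Or.inl h0
  · push Not at h0
    obtain ⟨v, hv⟩ := h0
    have hv' : x v = true := by simpa using hv
    by_cases h1 : ∀ w, x w = true → w = v
    · exact Or.inr (Or.inl ⟨v, fun w => ⟨h1 w, fun h => h ▸ hv'⟩⟩)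
    · push Not at h1
      obtain ⟨w, hw, hne⟩ := h1
      right; right
      unfold MP.size
      calc 2 = ∑ u ∈ ({v, w} : Finset M.V), (x u).toNat := by
            rw [Finset.sum_pair hne.symm, hv', hw]; rfl
        _ ≤ _ := Finset.sum_le_univ_sum_of_nonneg (fun _ => Nat.zero_le _)

theorem size_single {v : M.V} {x : M.V → Bool} (hx : ∀ w, x w = true ↔ w = v) : M.size x = 1 := by
  unfold MP.size
  rw [Finset.sum_eq_single v]
  · rw [(hx v).2 rfl]; rfl
  · intro w _ hw
    have : x w = false := by
      by_contra h
      exact hw ((hx w).1 (by simpa using h))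
    rw [this]; rfl
  · intro h
    exact absurd (Finset.mem_univ v) h

/-- every set is empty, everything, or has a large boundary -/
theorem split_cases (hM : M.Good n) (x : M.V → Bool) :
    (∀ v, x v = false) ∨ (∀ v, x v = true) ∨
      (2 ≤ M.cut x ∧ (4 ≤ M.cut x + M.sem x ∨ M.size x = 1)) := by
  rcases size_cases x with h | ⟨v, hv⟩ | h
  · exact Or.inl h
  · exact Or.inr (Or.inr ⟨cut_single hM hv, Or.inr (size_single hv)⟩)
  · have h4 := hM.cut4 x h
    rcases size_cases (M := M) (fun v => !x v) with h' | ⟨v, hv⟩ | h'
    · right; left
      intro v
      have := h' v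
      simpa using this
    · right; right
      have := cut_single hM hv
      rw [cut_compl hM] at this
      exact ⟨this, Or.inl h4⟩
    · right; right
      have h5 := hM.cut4 _ h'
      rw [cut_compl hM] at h5
      have h6 := sem_compl (M := M) x
      exact ⟨by omega, Or.inl h4⟩

theorem cut_const {x : M.V → Bool} {b : Bool} (h : ∀ v, x v = b) : M.cut x = 0 := by
  unfold MP.cut
  simp_rw [h]
  cases b <;> simp

theorem size_const_false {x : M.V → Bool} (h : ∀ v, x v = false) : M.size x = 0 := by
  unfold MP.size
  simp_rw [h]
  simp

theorem glue_cut4 (hM : M.Good n) (x : M.glue.V → Bool) (h2 : 2 ≤ M.glue.size x) :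
    4 ≤ M.glue.cut x + M.glue.sem x := by
  have hc := cut_glue M x
  rw [hc]
  have hs : M.glue.size x = (x none).toNat + (M.size (fun v => x (some (true, v))) +
      M.size (fun v => x (some (false, v)))) := sum_glue M _
  have he : M.glue.sem x = (x none).toNat + (x (some (false, M.e 0))).toNat +
      (x (some (false, M.e 1))).toNat + (x (some (true, M.e 2))).toNat +
      (x (some (true, M.e 3))).toNat := rfl
  rw [hs] at h2
  rw [he]
  have ef : M.sem (fun v => x (some (false, v))) = (x (some (false, M.r))).toNat +
    (x (some (false, M.e 0))).toNat + (x (some (false, M.e 1))).toNat +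
    (x (some (false, M.e 2))).toNat + (x (some (false, M.e 3))).toNat := rfl
  have et : M.sem (fun v => x (some (true, v))) = (x (some (true, M.r))).toNat +
    (x (some (true, M.e 0))).toNat + (x (some (true, M.e 1))).toNat +
    (x (some (true, M.e 2))).toNat + (x (some (true, M.e 3))).toNat := rfl
  rcases split_cases hM (fun v => x (some (false, v))) with hf | hf | ⟨hf, hf'⟩
  · rcases split_cases hM (fun v => x (some (true, v))) with ht | ht | ⟨ht, ht'⟩
    · rw [size_const_false hf, size_const_false ht] at h2
      have : (x none).toNat ≤ 1 := Bool.toNat_le _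
      omega
    · rw [cut_const hf, cut_const ht, hf, hf, hf, hf, hf, ht, ht, ht, ht, ht]
      cases x none <;> simp
    · rw [size_const_false hf] at h2
      rw [et] at ht'
      simp only [hf, cut_const hf]
      generalize M.cut (fun v => x (some (true, v))) = C at *
      generalize M.size (fun v => x (some (true, v))) = S at *
      generalize x none = a at *
      generalize x (some (true, M.r)) = b at *
      generalize x (some (true, M.e 0)) = c at *
      generalize x (some (true, M.e 1)) = d at *
      generalize x (some (true, M.e 2)) = e at *
      generalize x (some (true, M.e 3)) = f at *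
      clear et ef he hs hf
      cases a <;> cases b <;> cases c <;> cases d <;> cases e <;> cases f <;>
        simp only [Bool.toNat_false, Bool.toNat_true, reduceIte, Bool.false_eq_true,
          Bool.true_eq_false] at * <;> omega
  · rcases split_cases hM (fun v => x (some (true, v))) with ht | ht | ⟨ht, ht'⟩
    · rw [cut_const hf, cut_const ht, hf, hf, hf, hf, hf, ht, ht, ht, ht, ht]
      cases x none <;> simp
    · rw [cut_const hf, cut_const ht, hf, hf, hf, hf, hf, ht, ht, ht, ht, ht]
      cases x none <;> simp
    · simp only [hf, cut_const hf]
      generalize M.cut (fun v => x (some (true, v))) = C at *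
      generalize x none = a at *
      cases a <;> simp <;> omega
  · rcases split_cases hM (fun v => x (some (true, v))) with ht | ht | ⟨ht, ht'⟩
    · rw [size_const_false ht] at h2
      rw [ef] at hf'
      simp only [ht, cut_const ht]
      generalize M.cut (fun v => x (some (false, v))) = C at *
      generalize M.size (fun v => x (some (false, v))) = S at *
      generalize x none = a at *
      generalize x (some (false, M.r)) = b at *
      generalize x (some (false, M.e 0)) = c at *
      generalize x (some (false, M.e 1)) = d at *
      generalize x (some (false, M.e 2)) = e at *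
      generalize x (some (false, M.e 3)) = f at *
      clear et ef he hs ht
      cases a <;> cases b <;> cases c <;> cases d <;> cases e <;> cases f <;>
        simp only [Bool.toNat_false, Bool.toNat_true, reduceIte, Bool.false_eq_true,
          Bool.true_eq_false] at * <;> omega
    · simp only [ht, cut_const ht]
      generalize M.cut (fun v => x (some (false, v))) = C at *
      generalize x none = a at *
      cases a <;> simp <;> omega
    · omega

end Pool.Agent.Helper37K9.Snark
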