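import Pool.Agent.Helper37K9.Snark.Ring

set_option autoImplicit false
set_option linter.unusedSimpArgs false

namespace Pool.Agent.Helper37K9.Snark

variable {M : MP} {n : ℕ}

/-- The ring of three copies as a graph. -/
def ringGraph (hM : M.Good n) : SimpleGraph (Option (Fin 3 × M.V)) where
  Adj v w := M.rA v w = 1
  symm := ⟨fun v w (h : M.rA v w = 1) => by rw [rA_symm hM w v]; exact h⟩
  loopless := ⟨fun v (h : M.rA v v = 1) => by rw [rA_irr hM] at h; simp at h⟩

theorem rJ1 (hM : M.Good n) (i : Fin 3) : M.rA (some (i, M.e 2)) (some (i + 1, M.e 0)) = 1 := by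
  have h : ¬ i = i + 1 := by revert i; decide
  rw [rA_ss, if_neg h, if_pos rfl]
  exact (J_pos M hM).1

theorem rJ2 (hM : M.Good n) (i : Fin 3) : M.rA (some (i, M.e 3)) (some (i + 1, M.e 1)) = 1 := by
  have h : ¬ i = i + 1 := by revert i; decide
  rw [rA_ss, if_neg h, if_pos rfl]
  exact (J_pos M hM).2

/-- A multipole whose ring is not 3-edge-colourable -/
def MP.Bad (M : MP) : Prop :=
  ∀ (c : Fin 3 → M.V → M.V → Fin 3) (ρ y z : Fin 3 → Fin 3),
    (∀ i, M.Col (c i) (ρ i) ![y (i + 2), z (i + 2), y i, z i]) →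
    ρ 0 ≠ ρ 1 → ρ 0 ≠ ρ 2 → ρ 1 ≠ ρ 2 → False

theorem ring_col (hM : M.Good n) (hB : M.Bad)
    (c : Option (Fin 3 × M.V) → Option (Fin 3 × M.V) → Fin 3) (hs : ∀ v w, c v w = c w v)
    (hp : ∀ v w w', M.rA v w = 1 → M.rA v w' = 1 → w ≠ w' → c v w ≠ c v w') : False := by
  have inner : ∀ i v w, M.A v w = 1 → M.rA (some (i, v)) (some (i, w)) = 1 := fun i v w h => by
    rw [rA_ss, if_pos rfl]; exact h
  have hr : ∀ i, M.rA none (some (i, M.r)) = 1 := fun i => by rw [rA_ns, if_pos rfl]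
  have hr' : ∀ i, M.rA (some (i, M.r)) none = 1 := fun i => by rw [rA_sn, if_pos rfl]
  have h3 : ∀ i : Fin 3, i + 2 + 1 = i := by decide
  have hne : ∀ i : Fin 3, i ≠ i + 1 := by decide
  have hne2 : ∀ i : Fin 3, i ≠ i + 2 := by decide
  refine hB (fun i v w => c (some (i, v)) (some (i, w))) (fun i => c none (some (i, M.r)))
    (fun i => c (some (i, M.e 2)) (some (i + 1, M.e 0)))
    (fun i => c (some (i, M.e 3)) (some (i + 1, M.e 1))) (fun i => ⟨?_, ?_, ?_, ?_⟩) ?_ ?_ ?_
  · exact fun v w => hs _ _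
  · intro v w w' h1 h2 hne
    exact hp _ _ _ (inner _ _ _ h1) (inner _ _ _ h2) (fun e => hne (by simpa using e))
  · intro w hw
    show c (some (i, M.r)) (some (i, w)) ≠ c none (some (i, M.r))
    rw [hs none]
    exact hp _ _ _ (inner _ _ _ hw) (hr' _) (by simp)
  · intro k w hw
    fin_cases k
    · show c (some (i, M.e 0)) (some (i, w)) ≠
        c (some (i + 2, M.e 2)) (some (i + 2 + 1, M.e 0))
      have hj := rJ1 hM (i + 2)
      rw [h3 i] at hj ⊢
      rw [hs (some (i + 2, M.e 2))]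
      rw [rA_symm hM] at hj
      exact hp _ _ _ (inner _ _ _ hw) hj (fun e => hne2 i (by
        have := congrArg (Option.map Prod.fst) e
        simp at this))
    · show c (some (i, M.e 1)) (some (i, w)) ≠
        c (some (i + 2, M.e 3)) (some (i + 2 + 1, M.e 1))
      have hj := rJ2 hM (i + 2)
      rw [h3 i] at hj ⊢
      rw [hs (some (i + 2, M.e 3))]
      rw [rA_symm hM] at hj
      exact hp _ _ _ (inner _ _ _ hw) hj (fun e => hne2 i (by
        have := congrArg (Option.map Prod.fst) e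
        simp at this))
    · exact hp (some (i, M.e 2)) _ _ (inner _ _ _ hw) (rJ1 hM i) (fun e => hne i (by
        have := congrArg (Option.map Prod.fst) e
        simp at this))
    · exact hp (some (i, M.e 3)) _ _ (inner _ _ _ hw) (rJ2 hM i) (fun e => hne i (by
        have := congrArg (Option.map Prod.fst) e
        simp at this))
  · exact hp _ _ _ (hr _) (hr _) (by simp)
  · exact hp _ _ _ (hr _) (hr _) (by simp)
  · exact hp _ _ _ (hr _) (hr _) (by simp)

theorem dec_N : ∀ ρ0 ρ1 ρ2 : Fin 3, ρ0 ≠ ρ1 → ρ0 ≠ ρ2 → ρ1 ≠ ρ2 → ∀ y0 z0 y1 z1 : Fin 3,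
    N5 ρ1 y0 z0 y1 z1 → ∀ y2 z2 : Fin 3, N5 ρ2 y1 z1 y2 z2 → N5 ρ0 y2 z2 y0 z0 → False := by
  decide +kernel

theorem dec_A : ∀ ρ0 ρ1 ρ2 : Fin 3, ρ0 ≠ ρ1 → ρ0 ≠ ρ2 → ρ1 ≠ ρ2 → ∀ y0 z0 y1 z1 : Fin 3,
    A5 ρ1 y0 z1 z0 y1 → ∀ y2 z2 : Fin 3, A5 ρ2 y1 z2 z1 y2 → A5 ρ0 y2 z0 z2 y0 → False := by
  decide +kernel

theorem bad_of_N (hN : M.NType) : M.Bad := by
  intro c ρ y z h h01 h02 h12
  exact dec_N _ _ _ h01 h02 h12 _ _ _ _ (hN _ _ _ (h 1)) _ _ (hN _ _ _ (h 2)) (hN _ _ _ (h 0))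

theorem bad_of_A (hA : M.AType) : (M.relabel cy.symm).Bad := by
  intro c ρ y z h h01 h02 h12
  exact dec_A _ _ _ h01 h02 h12 _ _ _ _ (hA _ _ _ (col_relabel (h 1))) _ _
    (hA _ _ _ (col_relabel (h 2))) (hA _ _ _ (col_relabel (h 0)))

/-- for every depth there is a multipole with a ring which is not 3-edge-colourable -/
theorem exists_bad (n : ℕ) (hn : 2 ≤ n) : ∃ M : MP, M.Good n ∧ M.Bad := by
  obtain ⟨k, hk | hk⟩ : ∃ k, n = 2 + 2 * k ∨ n = 3 + 2 * k := ⟨(n - 2) / 2, by omega⟩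
  · obtain ⟨⟨M, h1, h2⟩, -⟩ := exists_mp k
    exact ⟨M, hk ▸ h1, bad_of_N h2⟩
  · obtain ⟨-, M, h1, h2, h3⟩ := exists_mp k
    exact ⟨M.relabel cy.symm, hk ▸ relabel_good h1 _ (h3 _ _) (h3 _ _), bad_of_A h2⟩

/-! ### Walks of length three and four -/

section walks

variable {V : Type*} {G : SimpleGraph V}

theorem len3 {u v : V} (p : G.Walk u v) (h : p.length = 3) :
    ∃ a b, G.Adj u a ∧ G.Adj a b ∧ G.Adj b v := by
  cases p with
  | nil => simp at h
  | cons h1 p =>
    cases p with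
    | nil => simp at h
    | cons h2 p =>
      cases p with
      | nil => simp at h
      | cons h3 p =>
        cases p with
        | nil => exact ⟨_, _, h1, h2, h3⟩
        | cons h4 p => simp at h

theorem len4 {u v : V} (p : G.Walk u v) (h : p.length = 4) :
    ∃ a b c, G.Adj u a ∧ G.Adj a b ∧ G.Adj b c ∧ G.Adj c v ∧ p.support = [u, a, b, c, v] := by
  cases p with
  | nil => simp at h
  | cons h1 p =>
    cases p with
    | nil => simp at h
    | cons h2 p =>
      cases p with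
      | nil => simp at h
      | cons h3 p =>
        cases p with
        | nil => simp at h
        | cons h4 p =>
          cases p with
          | nil => exact ⟨_, _, _, h1, h2, h3, h4, by simp⟩
          | cons h5 p => simp at h

theorem girth_of (htri : ∀ a b c, G.Adj a b → G.Adj b c → G.Adj c a → False)
    (hquad : ∀ a b c d, G.Adj a b → G.Adj b c → G.Adj c d → G.Adj d a → a ≠ c → b ≠ d → False) :
    5 ≤ G.egirth := by
  rw [SimpleGraph.le_egirth]
  intro v p hp
  have h3 := hp.three_le_length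
  have h5 : 5 ≤ p.length := by
    by_contra hcon
    rcases (show p.length = 3 ∨ p.length = 4 by omega) with h | h
    · obtain ⟨a, b, h1, h2, h3⟩ := len3 p h
      exact htri _ _ _ h1 h2 h3
    · obtain ⟨a, b, c, h1, h2, h3, h4, hs⟩ := len4 p h
      have hn := hp.support_nodup
      rw [hs] at hn
      simp only [List.tail_cons, List.nodup_cons, List.mem_cons, List.not_mem_nil, or_false,
        not_or] at hn
      exact hquad _ _ _ _ h1 h2 h3 h4 (fun h => hn.2.1.2 h.symm) hn.1.2.1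
  exact_mod_cast h5

end walks

end Pool.Agent.Helper37K9.Snark
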