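import Pool.Agent.Helper37K9.Snark.Basic

set_option autoImplicit false

namespace Pool.Agent.Helper37K9.Snark

variable {M : MP} {n : ℕ}

theorem sum_glue (M : MP) (f : Option (Bool × M.V) → ℕ) :
    ∑ v, f v = f none + (∑ v, f (some (true, v)) + ∑ v, f (some (false, v))) := by
  rw [Fintype.sum_option, Fintype.sum_prod_type, Fintype.sum_bool]

theorem sum_J_right (M : MP) (v : M.V) : ∑ w, M.J v w =
    (if v = M.e 2 then 1 else 0) + (if v = M.e 3 then 1 else 0) := by
  unfold MP.J
  rw [Finset.sum_add_distrib]
  congr 1
  · split_ifs <;> simp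
  · split_ifs <;> simp

theorem sum_J_left (M : MP) (w : M.V) : ∑ v, M.J v w =
    (if w = M.e 0 then 1 else 0) + (if w = M.e 1 then 1 else 0) := by
  unfold MP.J
  rw [Finset.sum_add_distrib]
  congr 1
  · rw [Finset.sum_ite_eq' Finset.univ (M.e 2) (fun _ => if w = M.e 0 then 1 else 0)]
    simp
  · rw [Finset.sum_ite_eq' Finset.univ (M.e 3) (fun _ => if w = M.e 1 then 1 else 0)]
    simp

theorem sum_J_cut (M : MP) (x y : M.V → Bool) :
    ∑ v, ∑ w, (if x v = true ∧ y w = false then M.J v w else 0) =
      (if x (M.e 2) = true ∧ y (M.e 0) = false then 1 else 0) +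
      (if x (M.e 3) = true ∧ y (M.e 1) = false then 1 else 0) := by
  have h : ∀ v w, (if x v = true ∧ y w = false then M.J v w else 0) =
      (if v = M.e 2 then (if w = M.e 0 then
        (if x (M.e 2) = true ∧ y (M.e 0) = false then 1 else 0) else 0) else 0) +
      (if v = M.e 3 then (if w = M.e 1 then
        (if x (M.e 3) = true ∧ y (M.e 1) = false then 1 else 0) else 0) else 0) := by
    intro v w
    unfold MP.J
    by_cases h1 : v = M.e 2
    · subst h1
      by_cases h2 : w = M.e 0
      · subst h2
        by_cases h3 : M.e 2 = M.e 3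
        · rw [h3]
          by_cases h4 : M.e 0 = M.e 1
          · rw [h4]; simp; split_ifs <;> rfl
          · simp [h4]
        · simp [h3]
      · by_cases h3 : M.e 2 = M.e 3
        · by_cases h4 : w = M.e 1
          · subst h4; simp [h2, ← h3]
          · simp [h2, h4]
        · simp [h2, h3]
    · by_cases h3 : v = M.e 3
      · subst h3
        by_cases h4 : w = M.e 1
        · subst h4; simp [h1]
        · simp [h1, h4]
      · simp [h1, h3]
  simp_rw [h]
  simp [Finset.sum_add_distrib]

theorem J_le (hM : M.Good n) (v w : M.V) : M.J v w ≤ 1 := by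
  unfold MP.J
  have h23 : M.e 2 ≠ M.e 3 := fun h => by have := hM.inj h; simp at this
  by_cases h1 : v = M.e 2
  · have h2 : v ≠ M.e 3 := h1 ▸ h23
    rw [if_neg h2, if_pos h1]
    split_ifs <;> simp
  · rw [if_neg h1]
    split_ifs <;> simp

theorem J_eq_one {v w : M.V} (h : M.J v w = 1) :
    (v = M.e 2 ∧ w = M.e 0) ∨ (v = M.e 3 ∧ w = M.e 1) := by
  unfold MP.J at h
  by_cases h1 : v = M.e 2 ∧ w = M.e 0
  · exact Or.inl h1
  · by_cases h2 : v = M.e 3 ∧ w = M.e 1
    · exact Or.inr h2
    · exfalso
      have e1 : (if v = M.e 2 then (if w = M.e 0 then 1 else 0) else 0) = 0 := by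
        split_ifs with a b
        · exact absurd ⟨a, b⟩ h1
        · rfl
        · rfl
      have e2 : (if v = M.e 3 then (if w = M.e 1 then 1 else 0) else 0) = 0 := by
        split_ifs with a b
        · exact absurd ⟨a, b⟩ h2
        · rfl
        · rfl
      rw [e1, e2] at h
      simp at h

/-- cuts in the composite -/
theorem cut_glue (M : MP) (x : Option (Bool × M.V) → Bool) :
    M.glue.cut x = M.cut (fun v => x (some (false, v))) + M.cut (fun v => x (some (true, v))) +
      (if x none = x (some (false, M.r)) then 0 else 1) +
      (if x none = x (some (true, M.r)) then 0 else 1) +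
      (if x (some (false, M.e 2)) = x (some (true, M.e 0)) then 0 else 1) +
      (if x (some (false, M.e 3)) = x (some (true, M.e 1)) then 0 else 1) := by
  have h0 : M.glue.cut x = ∑ v : Option (Bool × M.V), ∑ w : Option (Bool × M.V),
      if x v = true ∧ x w = false then M.gA v w else 0 := rfl
  rw [h0]
  simp_rw [sum_glue M]
  have e1 : M.gA none none = 0 := rfl
  have e2 : ∀ b v, M.gA none (some (b, v)) = if v = M.r then 1 else 0 := fun b v => by
    cases b <;> rfl
  have e3 : ∀ b v, M.gA (some (b, v)) none = if v = M.r then 1 else 0 := fun b v => by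
    cases b <;> rfl
  have e4 : ∀ v w, M.gA (some (false, v)) (some (false, w)) = M.A v w := fun v w => rfl
  have e5 : ∀ v w, M.gA (some (true, v)) (some (true, w)) = M.A v w := fun v w => rfl
  have e6 : ∀ v w, M.gA (some (false, v)) (some (true, w)) = M.J v w := fun v w => rfl
  have e7 : ∀ v w, M.gA (some (true, v)) (some (false, w)) = M.J w v := fun v w => rfl
  simp only [e1, e2, e3, e4, e5, e6, e7, Finset.sum_add_distrib]
  have k1 : ∀ (b : Bool), (∑ v, if x none = true ∧ x (some (b, v)) = false then
      (if v = M.r then 1 else 0) else 0) = if x none = true ∧ x (some (b, M.r)) = false then 1 else 0 := by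
    intro b
    have : ∀ v, (if x none = true ∧ x (some (b, v)) = false then
      (if v = M.r then 1 else 0) else 0) = if v = M.r then
        (if x none = true ∧ x (some (b, M.r)) = false then 1 else 0) else 0 := by
      intro v
      by_cases hv : v = M.r
      · subst hv; simp
      · simp [hv]
    simp_rw [this]
    simp
  have k2 : ∀ (b : Bool), (∑ v, if x (some (b, v)) = true ∧ x none = false then
      (if v = M.r then 1 else 0) else 0) = if x (some (b, M.r)) = true ∧ x none = false then 1 else 0 := by
    intro b
    have : ∀ v, (if x (some (b, v)) = true ∧ x none = false then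
      (if v = M.r then 1 else 0) else 0) = if v = M.r then
        (if x (some (b, M.r)) = true ∧ x none = false then 1 else 0) else 0 := by
      intro v
      by_cases hv : v = M.r
      · subst hv; simp
      · simp [hv]
    simp_rw [this]
    simp
  have k3 : (∑ v, ∑ w, if x (some (true, v)) = true ∧ x (some (false, w)) = false then M.J w v
      else 0) = (if x (some (true, M.e 0)) = true ∧ x (some (false, M.e 2)) = false then 1 else 0) +
      (if x (some (true, M.e 1)) = true ∧ x (some (false, M.e 3)) = false then 1 else 0) := by
    rw [Finset.sum_comm]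
    have := sum_J_cut M (fun v => !x (some (false, v))) (fun v => !x (some (true, v)))
    simp only [Bool.not_eq_true', Bool.not_eq_false'] at this
    rw [show (∑ w, ∑ v, if x (some (true, v)) = true ∧ x (some (false, w)) = false then M.J w v
      else 0) = ∑ v, ∑ w, if x (some (false, v)) = false ∧ x (some (true, w)) = true then M.J v w
      else 0 from Finset.sum_congr rfl fun w _ => Finset.sum_congr rfl fun v _ => by
        simp only [and_comm]]
    rw [this]
    simp only [and_comm]
  rw [k1, k1, k2, k2, k3, sum_J_cut M (fun v => x (some (false, v))) (fun v => x (some (true, v)))]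
  unfold MP.cut
  generalize (∑ v, ∑ w, if x (some (true, v)) = true ∧ x (some (true, w)) = false then M.A v w else 0) = T1
  generalize (∑ v, ∑ w, if x (some (false, v)) = true ∧ x (some (false, w)) = false then M.A v w else 0) = T2
  generalize x none = a
  generalize x (some (false, M.r)) = b
  generalize x (some (true, M.r)) = c
  generalize x (some (false, M.e 2)) = d
  generalize x (some (true, M.e 0)) = e
  generalize x (some (false, M.e 3)) = f
  generalize x (some (true, M.e 1)) = g
  cases a <;> cases b <;> cases c <;> cases d <;> cases e <;> cases f <;> cases g <;> simp <;> omega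

end Pool.Agent.Helper37K9.Snark
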