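import Pool.Agent.Helper37K9.Snark.Cut

set_option autoImplicit false
set_option linter.unusedSimpArgs false

namespace Pool.Agent.Helper37K9.Snark

variable {M : MP} {n : ℕ}

theorem e_ne (hM : M.Good n) {i j : Fin 4} (h : i ≠ j) : M.e i ≠ M.e j := fun h' => h (hM.inj h')

theorem J_right_unique (hM : M.Good n) {v w w' : M.V} (h : M.J v w = 1) (h' : M.J v w' = 1) :
    w = w' := by
  rcases J_eq_one h with ⟨a, b⟩ | ⟨a, b⟩ <;> rcases J_eq_one h' with ⟨c, d⟩ | ⟨c, d⟩
  · rw [b, d]
  · exact absurd (a.symm.trans c) (e_ne hM (by decide))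
  · exact absurd (a.symm.trans c) (e_ne hM (by decide))
  · rw [b, d]

theorem J_left_unique (hM : M.Good n) {v v' w : M.V} (h : M.J v w = 1) (h' : M.J v' w = 1) :
    v = v' := by
  rcases J_eq_one h with ⟨a, b⟩ | ⟨a, b⟩ <;> rcases J_eq_one h' with ⟨c, d⟩ | ⟨c, d⟩
  · rw [a, c]
  · exact absurd (b.symm.trans d) (e_ne hM (by decide))
  · exact absurd (b.symm.trans d) (e_ne hM (by decide))
  · rw [a, c]

theorem J_not_left (hM : M.Good n) {v v' w w' : M.V} (h : M.J v w = 1) (h' : M.J v' w' = 1)
    (ha : M.A v v' = 1) : False := by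
  rcases J_eq_one h with ⟨a, b⟩ | ⟨a, b⟩ <;> rcases J_eq_one h' with ⟨c, d⟩ | ⟨c, d⟩
  · rw [a, c, hM.irr] at ha; simp at ha
  · rw [a, c, hM.n23] at ha; simp at ha
  · rw [a, c, hM.symm, hM.n23] at ha; simp at ha
  · rw [a, c, hM.irr] at ha; simp at ha

theorem J_not_right (hM : M.Good n) {v v' w w' : M.V} (h : M.J v w = 1) (h' : M.J v' w' = 1)
    (ha : M.A w w' = 1) : False := by
  rcases J_eq_one h with ⟨a, b⟩ | ⟨a, b⟩ <;> rcases J_eq_one h' with ⟨c, d⟩ | ⟨c, d⟩
  · rw [b, d, hM.irr] at ha; simp at ha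
  · rw [b, d, hM.n01] at ha; simp at ha
  · rw [b, d, hM.symm, hM.n01] at ha; simp at ha
  · rw [b, d, hM.irr] at ha; simp at ha

theorem J_root_left (hM : M.Good n) {w : M.V} (h : M.J M.r w = 1) : False := by
  rcases J_eq_one h with ⟨a, _⟩ | ⟨a, _⟩
  · exact hM.ne_r _ a.symm
  · exact hM.ne_r _ a.symm

theorem J_root_right (hM : M.Good n) {v : M.V} (h : M.J v M.r = 1) : False := by
  rcases J_eq_one h with ⟨_, a⟩ | ⟨_, a⟩
  · exact hM.ne_r _ a.symm
  · exact hM.ne_r _ a.symm

theorem gA_symm (hM : M.Good n) (v w : Option (Bool × M.V)) : M.gA v w = M.gA w v := by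
  rcases v with _ | ⟨_ | _, v⟩ <;> rcases w with _ | ⟨_ | _, w⟩ <;> first | rfl | exact hM.symm _ _

theorem gA_irr (hM : M.Good n) (v : Option (Bool × M.V)) : M.gA v v = 0 := by
  rcases v with _ | ⟨_ | _, v⟩
  · rfl
  · exact hM.irr v
  · exact hM.irr v

theorem gA_le (hM : M.Good n) (v w : Option (Bool × M.V)) : M.gA v w ≤ 1 := by
  have hi : ∀ (p : Prop) [Decidable p], (if p then 1 else 0 : ℕ) ≤ 1 := fun p _ => by
    split_ifs <;> simp
  rcases v with _ | ⟨_ | _, v⟩ <;> rcases w with _ | ⟨_ | _, w⟩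
  · exact Nat.zero_le _
  · exact hi _
  · exact hi _
  · exact hi _
  · exact hM.le_one _ _
  · exact J_le hM _ _
  · exact hi _
  · exact J_le hM _ _
  · exact hM.le_one _ _

theorem gA_none {w : Option (Bool × M.V)} (h : M.gA none w = 1) : ∃ b, w = some (b, M.r) := by
  rcases w with _ | ⟨b, w⟩
  · simp [MP.gA] at h
  · refine ⟨b, ?_⟩
    have h' : (if w = M.r then 1 else 0) = 1 := by cases b <;> exact h
    by_cases hw : w = M.r
    · rw [hw]
    · rw [if_neg hw] at h'; simp at h'

theorem not_root_root (hM : M.Good n) {b b' : Bool} (h : M.gA (some (b, M.r)) (some (b', M.r)) = 1) :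
    False := by
  cases b <;> cases b'
  · have : M.A M.r M.r = 1 := h
    rw [hM.irr] at this; simp at this
  · exact J_root_left hM (w := M.r) h
  · exact J_root_left hM (w := M.r) h
  · have : M.A M.r M.r = 1 := h
    rw [hM.irr] at this; simp at this

theorem gA_tri (hM : M.Good n) (a b c : Option (Bool × M.V)) (h1 : M.gA a b = 1)
    (h2 : M.gA b c = 1) (h3 : M.gA c a = 1) : False := by
  have key : ∀ b c, M.gA none b = 1 → M.gA b c = 1 → M.gA c none = 1 → False := by
    intro b c h1 h2 h3
    obtain ⟨s, rfl⟩ := gA_none h1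
    rw [gA_symm hM] at h3
    obtain ⟨t, rfl⟩ := gA_none h3
    exact not_root_root hM h2
  rcases a with _ | ⟨s, a⟩
  · exact key _ _ h1 h2 h3
  rcases b with _ | ⟨t, b⟩
  · exact key _ _ h2 h3 h1
  rcases c with _ | ⟨u, c⟩
  · exact key _ _ h3 h1 h2
  cases s <;> cases t <;> cases u
  · exact hM.tri a b c h1 h2 h3
  · -- a b in false, c in true
    have h2' : M.J b c = 1 := h2
    have h3' : M.J a c = 1 := h3
    exact J_not_left hM h3' h2' h1
  · have h1' : M.J a b = 1 := h1
    have h2' : M.J c b = 1 := h2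
    exact J_not_left hM h2' h1' h3
  · have h1' : M.J a b = 1 := h1
    have h3' : M.J a c = 1 := h3
    exact J_not_right hM h1' h3' h2
  · have h1' : M.J b a = 1 := h1
    have h3' : M.J c a = 1 := h3
    exact J_not_left hM h1' h3' h2
  · have h1' : M.J b a = 1 := h1
    have h2' : M.J b c = 1 := h2
    exact J_not_right hM h2' h1' h3
  · have h2' : M.J c b = 1 := h2
    have h3' : M.J c a = 1 := h3
    exact J_not_right hM h3' h2' h1
  · exact hM.tri a b c h1 h2 h3

theorem gA_quad (hM : M.Good n) (a b c d : Option (Bool × M.V)) (h1 : M.gA a b = 1)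
    (h2 : M.gA b c = 1) (h3 : M.gA c d = 1) (h4 : M.gA d a = 1) (hac : a ≠ c) (hbd : b ≠ d) :
    False := by
  have key : ∀ b c d, M.gA none b = 1 → M.gA b c = 1 → M.gA c d = 1 → M.gA d none = 1 →
      none ≠ c → b ≠ d → False := by
    intro b c d h1 h2 h3 h4 hc hbd
    obtain ⟨s, rfl⟩ := gA_none h1
    rw [gA_symm hM] at h4
    obtain ⟨t, rfl⟩ := gA_none h4
    rcases c with _ | ⟨u, c⟩
    · exact hc rfl
    cases s <;> cases t <;> cases u <;> first
      | exact hbd rfl
      | exact J_root_left hM (w := c) h3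
      | exact J_root_left hM (w := c) h2
      | exact J_root_right hM (v := c) h3
      | exact J_root_right hM (v := c) h2
  rcases a with _ | ⟨s, a⟩
  · exact key _ _ _ h1 h2 h3 h4 hac hbd
  rcases b with _ | ⟨t, b⟩
  · exact key _ _ _ h2 h3 h4 h1 hbd hac.symm
  rcases c with _ | ⟨u, c⟩
  · exact key _ _ _ h3 h4 h1 h2 hac.symm hbd.symm
  rcases d with _ | ⟨v, d⟩
  · exact key _ _ _ h4 h1 h2 h3 hbd.symm hac
  cases s <;> cases t <;> cases u <;> cases v
  -- FFFF
  · exact hM.quad a b c d h1 h2 h3 h4 (fun h => hac (h ▸ rfl)) (fun h => hbd (h ▸ rfl))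
  -- FFFT : d in true: c-d, d-a junctions
  · exact hac (congrArg _ (congrArg _ (J_left_unique hM (show M.J a d = 1 from h4)
      (show M.J c d = 1 from h3))))
  -- FFTF
  · exact hbd (congrArg _ (congrArg _ (J_left_unique hM (show M.J b c = 1 from h2)
      (show M.J d c = 1 from h3))))
  -- FFTT : b-c, d-a junctions, a b in false
  · exact J_not_left hM (show M.J a d = 1 from h4) (show M.J b c = 1 from h2) h1
  -- FTFF
  · exact hac (congrArg _ (congrArg _ (J_left_unique hM (show M.J a b = 1 from h1)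
      (show M.J c b = 1 from h2))))
  -- FTFT
  · exact hac (congrArg _ (congrArg _ (J_left_unique hM (show M.J a b = 1 from h1)
      (show M.J c b = 1 from h2))))
  -- FTTF : a-b, c-d junctions; d a in false
  · exact J_not_left hM (show M.J d c = 1 from h3) (show M.J a b = 1 from h1) h4
  -- FTTT : a in false
  · exact hbd (congrArg _ (congrArg _ (J_right_unique hM (show M.J a b = 1 from h1)
      (show M.J a d = 1 from h4))))
  -- TFFF
  · exact hbd (congrArg _ (congrArg _ (J_left_unique hM (show M.J b a = 1 from h1)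
      (show M.J d a = 1 from h4))))
  -- TFFT : a-b, c-d junctions; b c in false
  · exact J_not_left hM (show M.J b a = 1 from h1) (show M.J c d = 1 from h3) h2
  -- TFTF
  · exact hbd (congrArg _ (congrArg _ (J_left_unique hM (show M.J b a = 1 from h1)
      (show M.J d a = 1 from h4))))
  -- TFTT : b in false
  · exact hac (congrArg _ (congrArg _ (J_right_unique hM (show M.J b a = 1 from h1)
      (show M.J b c = 1 from h2))))
  -- TTFF : b-c, d-a; c d in false
  · exact J_not_left hM (show M.J c b = 1 from h2) (show M.J d a = 1 from h4) h3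
  -- TTFT : c in false
  · exact hbd (congrArg _ (congrArg _ (J_right_unique hM (show M.J c b = 1 from h2)
      (show M.J c d = 1 from h3))))
  -- TTTF : d in false
  · exact hac (congrArg _ (congrArg _ (J_right_unique hM (show M.J d a = 1 from h4)
      (show M.J d c = 1 from h3))))
  -- TTTT
  · exact hM.quad a b c d h1 h2 h3 h4 (fun h => hac (h ▸ rfl)) (fun h => hbd (h ▸ rfl))

theorem gA_deg (hM : M.Good n) (v : Option (Bool × M.V)) :
    (∑ w, M.gA v w) + ((if v = none then 1 else 0) + (if v = some (false, M.e 0) then 1 else 0)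
    + (if v = some (false, M.e 1) then 1 else 0) + (if v = some (true, M.e 2) then 1 else 0)
    + (if v = some (true, M.e 3) then 1 else 0)) = 3 := by
  rw [sum_glue]
  rcases v with _ | ⟨_ | _, v⟩
  · have e1 : ∀ b v, M.gA none (some (b, v)) = if v = M.r then 1 else 0 := fun b v => by
      cases b <;> rfl
    simp [e1, show M.gA none none = 0 from rfl]
  · have e1 : ∀ w, M.gA (some (false, v)) (some (false, w)) = M.A v w := fun w => rfl
    have e2 : ∀ w, M.gA (some (false, v)) (some (true, w)) = M.J v w := fun w => rfl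
    have e3 : M.gA (some (false, v)) none = if v = M.r then 1 else 0 := rfl
    have h := hM.deg v
    simp_rw [e1, e2, e3, sum_J_right]
    simp only [Option.some.injEq, Prod.mk.injEq, reduceCtorEq, if_false, true_and,
      Bool.false_eq_true, false_and]
    omega
  · have e1 : ∀ w, M.gA (some (true, v)) (some (true, w)) = M.A v w := fun w => rfl
    have e2 : ∀ w, M.gA (some (true, v)) (some (false, w)) = M.J w v := fun w => rfl
    have e3 : M.gA (some (true, v)) none = if v = M.r then 1 else 0 := rfl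
    have h := hM.deg v
    simp_rw [e1, e2, e3, sum_J_left]
    simp only [Option.some.injEq, Prod.mk.injEq, reduceCtorEq, if_false, true_and,
      Bool.true_eq_false, false_and]
    omega

theorem glue_good (hM : M.Good n) : M.glue.Good (n + 1) where
  symm := gA_symm hM
  irr := gA_irr hM
  le_one := gA_le hM
  inj := by
    have h01 : M.e 0 ≠ M.e 1 := e_ne hM (by decide)
    have h23 : M.e 2 ≠ M.e 3 := e_ne hM (by decide)
    intro i j h
    fin_cases i <;> fin_cases j <;>
      first
      | rfl
      | (exfalso; simp [MP.glue] at h; first | exact h01 h | exact h01 h.symm | exact h23 h | exact h23 h.symm)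
      | (exfalso; simp [MP.glue] at h)
  ne_r := by
    intro i
    fin_cases i <;> simp [MP.glue]
  deg := gA_deg hM
  tri := gA_tri hM
  quad := gA_quad hM
  n01 := hM.n01
  n23 := hM.n23
  cut4 := glue_cut4 hM
  winj := by
    intro v w h
    rcases v with _ | ⟨s, v⟩ <;> rcases w with _ | ⟨t, w⟩
    · rfl
    · simp [MP.glue] at h
    · simp [MP.glue] at h
    · simp only [MP.glue, List.cons.injEq] at h
      rw [h.1, hM.winj h.2]
  wsurj := by
    intro l hl
    rcases l with _ | ⟨b, l⟩
    · exact ⟨none, rfl⟩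
    · obtain ⟨v, hv⟩ := hM.wsurj l (by simpa using hl)
      exact ⟨some (b, v), by simp [MP.glue, hv]⟩
  wlen := by
    intro v
    rcases v with _ | ⟨s, v⟩
    · simp [MP.glue]
    · simpa [MP.glue] using hM.wlen v
  wtree := by
    intro v w b h
    rcases v with _ | ⟨s, v⟩ <;> rcases w with _ | ⟨t, w⟩
    · simp [MP.glue] at h
    · simp only [MP.glue, List.nil_append, List.cons.injEq] at h
      have hw : w = M.r := hM.winj (h.2.trans hM.wr.symm)
      subst hw
      cases t <;> simp [MP.glue, MP.gA]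
    · simp [MP.glue] at h
    · simp only [MP.glue, List.cons_append, List.cons.injEq] at h
      have := hM.wtree v w b h.2
      rw [h.1]
      cases s <;> exact this
  wr := rfl
  wend := by
    intro i
    fin_cases i <;> simp [MP.glue, hM.wend]

/-- all ends of a composite are pairwise non-adjacent -/
theorem glue_nadj (hM : M.Good n) (i j : Fin 4) : M.glue.A (M.glue.e i) (M.glue.e j) = 0 := by
  have hJ : ∀ i j, (i = 0 ∨ i = 1) → (j = 2 ∨ j = 3) → M.J (M.e i) (M.e j) = 0 := by
    intro i j hi hj
    by_contra h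
    have h1 : M.J (M.e i) (M.e j) = 1 := by
      have := J_le hM (M.e i) (M.e j)
      omega
    rcases J_eq_one h1 with ⟨a, _⟩ | ⟨a, _⟩
    · have := hM.inj a
      subst this
      rcases hi with hi | hi <;> simp at hi
    · have := hM.inj a
      subst this
      rcases hi with hi | hi <;> simp at hi
  have h01 := hM.n01
  have h23 := hM.n23
  have h10 := (hM.symm (M.e 1) (M.e 0)).trans hM.n01
  have h32 := (hM.symm (M.e 3) (M.e 2)).trans hM.n23
  fin_cases i <;> fin_cases j <;>
    first
    | exact hM.irr _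
    | exact h01
    | exact h10
    | exact h23
    | exact h32
    | exact hJ 0 2 (by simp) (by simp)
    | exact hJ 0 3 (by simp) (by simp)
    | exact hJ 1 2 (by simp) (by simp)
    | exact hJ 1 3 (by simp) (by simp)

theorem relabel_good (hM : M.Good n) (s : Equiv.Perm (Fin 4))
    (h01 : M.A (M.e (s 0)) (M.e (s 1)) = 0) (h23 : M.A (M.e (s 2)) (M.e (s 3)) = 0) :
    (M.relabel s).Good n where
  symm := hM.symm
  irr := hM.irr
  le_one := hM.le_one
  inj := fun _ _ h => s.injective (hM.inj h)
  ne_r := fun i => hM.ne_r _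
  deg := by
    intro (v : M.V)
    have h := hM.deg v
    have hs : ∀ f : Fin 4 → ℕ, f (s 0) + f (s 1) + f (s 2) + f (s 3) = f 0 + f 1 + f 2 + f 3 := by
      intro f
      have := Equiv.sum_comp s f
      simpa [Fin.sum_univ_four] using this
    have h2 : (if v = M.e (s 0) then 1 else 0) + (if v = M.e (s 1) then 1 else 0)
      + (if v = M.e (s 2) then 1 else 0) + (if v = M.e (s 3) then 1 else 0) =
      (if v = M.e 0 then 1 else 0) + (if v = M.e 1 then 1 else 0)
      + (if v = M.e 2 then 1 else 0) + (if v = M.e 3 then 1 else 0) :=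
      hs (fun i => if v = M.e i then 1 else 0)
    show (∑ w, M.A v w) + ((if v = M.r then 1 else 0) + (if v = M.e (s 0) then 1 else 0)
      + (if v = M.e (s 1) then 1 else 0) + (if v = M.e (s 2) then 1 else 0)
      + (if v = M.e (s 3) then 1 else 0)) = 3
    omega
  tri := hM.tri
  quad := hM.quad
  n01 := h01
  n23 := h23
  cut4 := by
    intro (x : M.V → Bool) hx
    have hs : ∀ f : Fin 4 → ℕ, f (s 0) + f (s 1) + f (s 2) + f (s 3) = f 0 + f 1 + f 2 + f 3 := by
      intro f
      have := Equiv.sum_comp s f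
      simpa [Fin.sum_univ_four] using this
    have h2 : (x (M.e (s 0))).toNat + (x (M.e (s 1))).toNat + (x (M.e (s 2))).toNat +
        (x (M.e (s 3))).toNat = (x (M.e 0)).toNat + (x (M.e 1)).toNat +
        (x (M.e 2)).toNat + (x (M.e 3)).toNat := hs (fun i => (x (M.e i)).toNat)
    have h3 : (M.relabel s).sem x = M.sem x := by
      show (x M.r).toNat + (x (M.e (s 0))).toNat + (x (M.e (s 1))).toNat + (x (M.e (s 2))).toNat +
        (x (M.e (s 3))).toNat = (x M.r).toNat + (x (M.e 0)).toNat + (x (M.e 1)).toNat +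
        (x (M.e 2)).toNat + (x (M.e 3)).toNat
      omega
    rw [h3]
    exact hM.cut4 x hx
  winj := hM.winj
  wsurj := hM.wsurj
  wlen := hM.wlen
  wtree := hM.wtree
  wr := hM.wr
  wend := fun i => hM.wend _

end Pool.Agent.Helper37K9.Snark
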