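import Pool.Agent.Helper37K9.Snark.Base

set_option autoImplicit false
set_option linter.unusedSimpArgs false

namespace Pool.Agent.Helper37K9.Snark

variable {M : MP} {n : ℕ}

/-- adjacency numbers of the ring of three copies of `M`, with a centre joined to the roots -/
def MP.rA (M : MP) : Option (Fin 3 × M.V) → Option (Fin 3 × M.V) → ℕ
  | none, none => 0
  | none, some (_, v) => if v = M.r then 1 else 0
  | some (_, v), none => if v = M.r then 1 else 0
  | some (i, v), some (j, w) =>
    if i = j then M.A v w else if j = i + 1 then M.J v w else M.J w v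

theorem rA_nn (M : MP) : M.rA none none = 0 := rfl
theorem rA_ns (M : MP) (i : Fin 3) (v : M.V) : M.rA none (some (i, v)) = if v = M.r then 1 else 0 :=
  rfl
theorem rA_sn (M : MP) (i : Fin 3) (v : M.V) : M.rA (some (i, v)) none = if v = M.r then 1 else 0 :=
  rfl
theorem rA_ss (M : MP) (i j : Fin 3) (v w : M.V) : M.rA (some (i, v)) (some (j, w)) =
    if i = j then M.A v w else if j = i + 1 then M.J v w else M.J w v := rfl

theorem rA_cases {i j : Fin 3} {v w : M.V} (h : M.rA (some (i, v)) (some (j, w)) = 1) :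
    (j = i ∧ M.A v w = 1) ∨ (j = i + 1 ∧ M.J v w = 1) ∨ (i = j + 1 ∧ M.J w v = 1) := by
  rw [rA_ss] at h
  by_cases h1 : i = j
  · rw [if_pos h1] at h
    exact Or.inl ⟨h1.symm, h⟩
  · rw [if_neg h1] at h
    by_cases h2 : j = i + 1
    · rw [if_pos h2] at h
      exact Or.inr (Or.inl ⟨h2, h⟩)
    · rw [if_neg h2] at h
      refine Or.inr (Or.inr ⟨?_, h⟩)
      revert h1 h2
      revert i j
      decide

theorem rA_symm (hM : M.Good n) (v w : Option (Fin 3 × M.V)) : M.rA v w = M.rA w v := by
  rcases v with _ | ⟨i, v⟩ <;> rcases w with _ | ⟨j, w⟩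
  · rfl
  · rfl
  · rfl
  · rw [rA_ss, rA_ss]
    by_cases h1 : i = j
    · rw [if_pos h1, if_pos h1.symm, hM.symm]
    · rw [if_neg h1, if_neg (Ne.symm h1)]
      by_cases h2 : j = i + 1
      · have h3 : ¬ i = j + 1 := by
          subst h2; revert i; decide
        rw [if_pos h2, if_neg h3]
      · have h3 : i = j + 1 := by
          revert h1 h2; revert i j; decide
        rw [if_neg h2, if_pos h3]

theorem rA_irr (hM : M.Good n) (v : Option (Fin 3 × M.V)) : M.rA v v = 0 := by
  rcases v with _ | ⟨i, v⟩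
  · rfl
  · rw [rA_ss, if_pos rfl, hM.irr]

theorem rA_le (hM : M.Good n) (v w : Option (Fin 3 × M.V)) : M.rA v w ≤ 1 := by
  rcases v with _ | ⟨i, v⟩ <;> rcases w with _ | ⟨j, w⟩
  · exact Nat.zero_le _
  · rw [rA_ns]; split_ifs <;> simp
  · rw [rA_sn]; split_ifs <;> simp
  · rw [rA_ss]
    split_ifs
    · exact hM.le_one _ _
    · exact J_le hM _ _
    · exact J_le hM _ _

theorem sum_ring (M : MP) (f : Option (Fin 3 × M.V) → ℕ) :
    ∑ v, f v = f none + (∑ v, f (some (0, v)) + ∑ v, f (some (1, v)) + ∑ v, f (some (2, v))) := by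
  rw [Fintype.sum_option, Fintype.sum_prod_type, Fin.sum_univ_three]

theorem rA_deg (hM : M.Good n) (v : Option (Fin 3 × M.V)) : (∑ w, M.rA v w) = 3 := by
  rw [sum_ring]
  rcases v with _ | ⟨i, v⟩
  · simp_rw [rA_nn, rA_ns]
    simp
  · simp_rw [rA_sn, rA_ss]
    have h := hM.deg v
    have hl := sum_J_left M v
    have hr := sum_J_right M v
    fin_cases i <;> simp [hl, hr] <;> omega

theorem J_chain (hM : M.Good n) {a b c : M.V} (h1 : M.J a b = 1) (h2 : M.J b c = 1) : False := by
  rcases J_eq_one h1 with ⟨_, h⟩ | ⟨_, h⟩ <;> rcases J_eq_one h2 with ⟨h', _⟩ | ⟨h', _⟩ <;>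
    exact absurd (h.symm.trans h') (e_ne hM (by decide))

theorem rA_none {w : Option (Fin 3 × M.V)} (h : M.rA none w = 1) : ∃ b, w = some (b, M.r) := by
  rcases w with _ | ⟨b, w⟩
  · simp [MP.rA] at h
  · refine ⟨b, ?_⟩
    rw [rA_ns] at h
    by_cases hw : w = M.r
    · rw [hw]
    · rw [if_neg hw] at h; simp at h

theorem not_root_root_r (hM : M.Good n) {b b' : Fin 3}
    (h : M.rA (some (b, M.r)) (some (b', M.r)) = 1) : False := by
  rcases rA_cases h with ⟨_, h⟩ | ⟨_, h⟩ | ⟨_, h⟩
  · rw [hM.irr] at h; simp at h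
  · exact J_root_left hM h
  · exact J_root_left hM h

theorem rA_tri (hM : M.Good n) (a b c : Option (Fin 3 × M.V)) (h1 : M.rA a b = 1)
    (h2 : M.rA b c = 1) (h3 : M.rA c a = 1) : False := by
  have key : ∀ b c, M.rA none b = 1 → M.rA b c = 1 → M.rA c none = 1 → False := by
    intro b c h1 h2 h3
    obtain ⟨s, rfl⟩ := rA_none h1
    rw [rA_symm hM] at h3
    obtain ⟨t, rfl⟩ := rA_none h3
    exact not_root_root_r hM h2
  rcases a with _ | ⟨i, a⟩
  · exact key _ _ h1 h2 h3
  rcases b with _ | ⟨j, b⟩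
  · exact key _ _ h2 h3 h1
  rcases c with _ | ⟨k, c⟩
  · exact key _ _ h3 h1 h2
  have ns : ∀ i : Fin 3, i ≠ i + 1 := by decide
  have ns2 : ∀ i : Fin 3, i ≠ i + 1 + 1 := by decide
  rcases rA_cases h1 with ⟨e1, g1⟩ | ⟨e1, g1⟩ | ⟨e1, g1⟩ <;>
    rcases rA_cases h2 with ⟨e2, g2⟩ | ⟨e2, g2⟩ | ⟨e2, g2⟩ <;>
    rcases rA_cases h3 with ⟨e3, g3⟩ | ⟨e3, g3⟩ | ⟨e3, g3⟩ <;>
    first
    | exact hM.tri _ _ _ g1 g2 g3
    | exact J_chain hM g1 g2
    | exact J_chain hM g2 g3
    | exact J_chain hM g3 g1
    | exact J_chain hM g2 g1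
    | exact J_chain hM g3 g2
    | exact J_chain hM g1 g3
    | exact J_not_left hM g1 g2 g3
    | exact J_not_left hM g2 g1 g3
    | exact J_not_left hM g1 g3 g2
    | exact J_not_left hM g3 g1 g2
    | exact J_not_left hM g2 g3 g1
    | exact J_not_left hM g3 g2 g1
    | exact J_not_right hM g1 g2 g3
    | exact J_not_right hM g2 g1 g3
    | exact J_not_right hM g1 g3 g2
    | exact J_not_right hM g3 g1 g2
    | exact J_not_right hM g2 g3 g1
    | exact J_not_right hM g3 g2 g1
    | (exfalso; clear * - e1 e2 e3; revert i j k; decide)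

set_option maxHeartbeats 4000000 in
theorem rA_quad (hM : M.Good n) (a b c d : Option (Fin 3 × M.V)) (h1 : M.rA a b = 1)
    (h2 : M.rA b c = 1) (h3 : M.rA c d = 1) (h4 : M.rA d a = 1) (hac : a ≠ c) (hbd : b ≠ d) :
    False := by
  have key : ∀ b c d, M.rA none b = 1 → M.rA b c = 1 → M.rA c d = 1 → M.rA d none = 1 →
      none ≠ c → b ≠ d → False := by
    intro b c d h1 h2 h3 h4 hc hbd
    obtain ⟨s, rfl⟩ := rA_none h1
    rw [rA_symm hM] at h4
    obtain ⟨t, rfl⟩ := rA_none h4
    rcases c with _ | ⟨u, c⟩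
    · exact hc rfl
    have hst : s ≠ t := fun h => hbd (h ▸ rfl)
    rcases rA_cases h2 with ⟨e2, g2⟩ | ⟨e2, g2⟩ | ⟨e2, g2⟩
    · rcases rA_cases h3 with ⟨e3, g3⟩ | ⟨e3, g3⟩ | ⟨e3, g3⟩
      · exact hst (e2.symm.trans e3.symm)
      · exact J_root_right hM g3
      · exact J_root_left hM g3
    · exact J_root_left hM g2
    · exact J_root_right hM g2
  rcases a with _ | ⟨i, a⟩
  · exact key _ _ _ h1 h2 h3 h4 hac hbd
  rcases b with _ | ⟨j, b⟩
  · exact key _ _ _ h2 h3 h4 h1 hbd hac.symm
  rcases c with _ | ⟨k, c⟩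
  · exact key _ _ _ h3 h4 h1 h2 hac.symm hbd.symm
  rcases d with _ | ⟨l, d⟩
  · exact key _ _ _ h4 h1 h2 h3 hbd.symm hac
  have ns : ∀ i : Fin 3, i ≠ i + 1 := by decide
  have hidx : ∀ i k : Fin 3, i + 1 = k + 1 → i = k := by decide
  rcases rA_cases h1 with ⟨e1, g1⟩ | ⟨e1, g1⟩ | ⟨e1, g1⟩ <;>
    rcases rA_cases h2 with ⟨e2, g2⟩ | ⟨e2, g2⟩ | ⟨e2, g2⟩ <;>
    rcases rA_cases h3 with ⟨e3, g3⟩ | ⟨e3, g3⟩ | ⟨e3, g3⟩ <;>
    rcases rA_cases h4 with ⟨e4, g4⟩ | ⟨e4, g4⟩ | ⟨e4, g4⟩ <;>
    first
    | exact J_chain hM g1 g2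
    | exact J_chain hM g2 g3
    | exact J_chain hM g3 g4
    | exact J_chain hM g4 g1
    | exact J_chain hM g2 g1
    | exact J_chain hM g3 g2
    | exact J_chain hM g4 g3
    | exact J_chain hM g1 g4
    | (exfalso; apply hac; rw [J_left_unique hM g1 g2, hidx i k (e1.symm.trans e2)])
    | (exfalso; apply hac; rw [J_right_unique hM g1 g2, e1, e2])
    | (exfalso; apply hbd; rw [J_left_unique hM g2 g3, hidx j l (e2.symm.trans e3)])
    | (exfalso; apply hbd; rw [J_right_unique hM g2 g3, e2, e3])
    | (exfalso; apply hac; rw [J_left_unique hM g4 g3, hidx i k (e4.symm.trans e3)])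
    | (exfalso; apply hac; rw [J_right_unique hM g4 g3, e4, e3])
    | (exfalso; apply hbd; rw [J_left_unique hM g1 g4, hidx j l (e1.symm.trans e4)])
    | (exfalso; apply hbd; rw [J_right_unique hM g1 g4, e1, e4])
    | exact J_not_left hM g1 g3 g4
    | exact J_not_left hM g3 g1 g4
    | exact J_not_left hM g1 g3 g2
    | exact J_not_left hM g3 g1 g2
    | exact J_not_left hM g2 g4 g1
    | exact J_not_left hM g4 g2 g1
    | exact J_not_left hM g2 g4 g3
    | exact J_not_left hM g4 g2 g3
    | (exfalso; clear * - e1 e2 e3 e4; revert i j k l; decide)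
    | (have q1 : i = k := by rw [e2, e1]
       have q2 : j = l := by rw [e3, e2]
       exact hM.quad a b c d g1 g2 g3 g4 (fun h => hac (by rw [h, q1])) (fun h => hbd (by rw [h, q2])))

/-- the number of edges between a set and its complement in the ring -/
def MP.rcut (M : MP) (x : Option (Fin 3 × M.V) → Bool) : ℕ :=
  ∑ v, ∑ w, if x v = true ∧ x w = false then M.rA v w else 0

theorem root_cut (M : MP) (i : Fin 3) (x : Option (Fin 3 × M.V) → Bool) :
    (∑ v, if x none = true ∧ x (some (i, v)) = false then M.rA none (some (i, v)) else 0) +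
    (∑ v, if x (some (i, v)) = true ∧ x none = false then M.rA (some (i, v)) none else 0) =
    (if x none = x (some (i, M.r)) then 0 else 1) := by
  simp_rw [rA_ns, rA_sn]
  have h1 : ∀ v, (if x none = true ∧ x (some (i, v)) = false then
      (if v = M.r then 1 else 0) else 0) = if v = M.r then
        (if x none = true ∧ x (some (i, M.r)) = false then 1 else 0) else 0 := by
      intro v
      by_cases hv : v = M.r
      · subst hv; simp
      · simp [hv]
  have h2 : ∀ v, (if x (some (i, v)) = true ∧ x none = false then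
      (if v = M.r then 1 else 0) else 0) = if v = M.r then
        (if x (some (i, M.r)) = true ∧ x none = false then 1 else 0) else 0 := by
      intro v
      by_cases hv : v = M.r
      · subst hv; simp
      · simp [hv]
  simp_rw [h1, h2]
  simp only [Finset.sum_ite_eq', Finset.mem_univ, if_true]
  cases x none <;> cases x (some (i, M.r)) <;> simp

theorem J_cut2 (M : MP) (x y : M.V → Bool) :
    (∑ v, ∑ w, if x v = true ∧ y w = false then M.J v w else 0) +
    (∑ w, ∑ v, if y w = true ∧ x v = false then M.J v w else 0) =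
    (if x (M.e 2) = y (M.e 0) then 0 else 1) + (if x (M.e 3) = y (M.e 1) then 0 else 1) := by
  have k3 : (∑ w, ∑ v, if y w = true ∧ x v = false then M.J v w else 0) =
      (if y (M.e 0) = true ∧ x (M.e 2) = false then 1 else 0) +
      (if y (M.e 1) = true ∧ x (M.e 3) = false then 1 else 0) := by
    rw [Finset.sum_comm]
    have := sum_J_cut M (fun v => !x v) (fun v => !y v)
    simp only [Bool.not_eq_true', Bool.not_eq_false'] at this
    rw [show (∑ v, ∑ w, if y w = true ∧ x v = false then M.J v w else 0) =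
      ∑ v, ∑ w, if x v = false ∧ y w = true then M.J v w
      else 0 from Finset.sum_congr rfl fun w _ => Finset.sum_congr rfl fun v _ => by
        simp only [and_comm]]
    rw [this]
    simp only [and_comm]
  rw [k3, sum_J_cut M x y]
  cases x (M.e 2) <;> cases y (M.e 0) <;> cases x (M.e 3) <;> cases y (M.e 1) <;> simp

theorem rcut_eq (M : MP) (x : Option (Fin 3 × M.V) → Bool) :
    M.rcut x = (M.cut (fun v => x (some (0, v))) + M.cut (fun v => x (some (1, v))) +
        M.cut (fun v => x (some (2, v)))) +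
      ((if x none = x (some (0, M.r)) then 0 else 1) +
      (if x none = x (some (1, M.r)) then 0 else 1) +
      (if x none = x (some (2, M.r)) then 0 else 1)) +
      (((if x (some (0, M.e 2)) = x (some (1, M.e 0)) then 0 else 1) +
        (if x (some (0, M.e 3)) = x (some (1, M.e 1)) then 0 else 1)) +
      ((if x (some (1, M.e 2)) = x (some (2, M.e 0)) then 0 else 1) +
        (if x (some (1, M.e 3)) = x (some (2, M.e 1)) then 0 else 1)) +
      ((if x (some (2, M.e 2)) = x (some (0, M.e 0)) then 0 else 1) +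
        (if x (some (2, M.e 3)) = x (some (0, M.e 1)) then 0 else 1))) := by
  have r0 := root_cut M 0 x
  have r1 := root_cut M 1 x
  have r2 := root_cut M 2 x
  have j01 := J_cut2 M (fun v => x (some (0, v))) (fun v => x (some (1, v)))
  have j12 := J_cut2 M (fun v => x (some (1, v))) (fun v => x (some (2, v)))
  have j20 := J_cut2 M (fun v => x (some (2, v))) (fun v => x (some (0, v)))
  unfold MP.rcut MP.cut
  simp_rw [sum_ring M]
  have e00 : ∀ v w, M.rA (some (0, v)) (some (0, w)) = M.A v w := fun v w => rfl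
  have e11 : ∀ v w, M.rA (some (1, v)) (some (1, w)) = M.A v w := fun v w => rfl
  have e22 : ∀ v w, M.rA (some (2, v)) (some (2, w)) = M.A v w := fun v w => rfl
  have e01 : ∀ v w, M.rA (some (0, v)) (some (1, w)) = M.J v w := fun v w => rfl
  have e12 : ∀ v w, M.rA (some (1, v)) (some (2, w)) = M.J v w := fun v w => rfl
  have e20 : ∀ v w, M.rA (some (2, v)) (some (0, w)) = M.J v w := fun v w => rfl
  have e10 : ∀ v w, M.rA (some (1, v)) (some (0, w)) = M.J w v := fun v w => rfl
  have e21 : ∀ v w, M.rA (some (2, v)) (some (1, w)) = M.J w v := fun v w => rfl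
  have e02 : ∀ v w, M.rA (some (0, v)) (some (2, w)) = M.J w v := fun v w => rfl
  simp only [e00, e11, e22, e01, e12, e20, e10, e21, e02, rA_nn, Finset.sum_add_distrib]
  simp only [ite_self]
  omega

theorem compl_facts (hM : M.Good n) (x : M.V → Bool) :
    (∀ v, x v = false) ∨ (∀ v, x v = true) ∨
      (2 ≤ M.cut x ∧ (4 ≤ M.cut x + M.sem x ∨ M.size x = 1) ∧
        (4 + M.sem x ≤ M.cut x + 5 ∨ M.size (fun v => !x v) = 1)) := by
  rcases split_cases hM x with h | h | ⟨h1, h2⟩
  · exact Or.inl h
  · exact Or.inr (Or.inl h)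
  · rcases split_cases hM (fun v => !x v) with h | h | ⟨h3, h4⟩
    · right; left; intro v; simpa using h v
    · left; intro v; simpa using h v
    · right; right
      refine ⟨h1, h2, ?_⟩
      rw [cut_compl hM] at h4
      have := sem_compl (M := M) x
      rcases h4 with h4 | h4
      · left; omega
      · exact Or.inr h4

theorem size_const_compl_true {x : M.V → Bool} (h : ∀ v, x v = true) :
    M.size (fun v => !x v) = 0 := size_const_false (fun v => by simp [h v])

/-- the ring is cyclically 4-edge-connected -/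
theorem ring_cut (hM : M.Good n) (x : Option (Fin 3 × M.V) → Bool)
    (h2 : 2 ≤ ∑ v, (x v).toNat) (h2' : 2 ≤ ∑ v, (!x v).toNat) : 4 ≤ M.rcut x := by
  rw [rcut_eq]
  rw [sum_ring] at h2 h2'
  have s0 : (∑ v, (x (some (0, v))).toNat) = M.size (fun v => x (some (0, v))) := rfl
  have s1 : (∑ v, (x (some (1, v))).toNat) = M.size (fun v => x (some (1, v))) := rfl
  have s2 : (∑ v, (x (some (2, v))).toNat) = M.size (fun v => x (some (2, v))) := rfl
  have t0 : (∑ v, (!x (some (0, v))).toNat) = M.size (fun v => !x (some (0, v))) := rfl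
  have t1 : (∑ v, (!x (some (1, v))).toNat) = M.size (fun v => !x (some (1, v))) := rfl
  have t2 : (∑ v, (!x (some (2, v))).toNat) = M.size (fun v => !x (some (2, v))) := rfl
  rw [s0, s1, s2] at h2
  rw [t0, t1, t2] at h2'
  have u0 : M.sem (fun v => x (some (0, v))) = (x (some (0, M.r))).toNat +
    (x (some (0, M.e 0))).toNat + (x (some (0, M.e 1))).toNat + (x (some (0, M.e 2))).toNat +
    (x (some (0, M.e 3))).toNat := rfl
  have u1 : M.sem (fun v => x (some (1, v))) = (x (some (1, M.r))).toNat +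
    (x (some (1, M.e 0))).toNat + (x (some (1, M.e 1))).toNat + (x (some (1, M.e 2))).toNat +
    (x (some (1, M.e 3))).toNat := rfl
  have u2 : M.sem (fun v => x (some (2, v))) = (x (some (2, M.r))).toNat +
    (x (some (2, M.e 0))).toNat + (x (some (2, M.e 1))).toNat + (x (some (2, M.e 2))).toNat +
    (x (some (2, M.e 3))).toNat := rfl
  have cst : ∀ i : Fin 3, (∃ b, ∀ v, x (some (i, v)) = b) ∨
      (2 ≤ M.cut (fun v => x (some (i, v))) ∧ (4 ≤ M.cut (fun v => x (some (i, v))) +
        M.sem (fun v => x (some (i, v))) ∨ M.size (fun v => x (some (i, v))) = 1) ∧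
        (4 + M.sem (fun v => x (some (i, v))) ≤ M.cut (fun v => x (some (i, v))) + 5 ∨
          M.size (fun v => !x (some (i, v))) = 1)) := by
    intro i
    rcases compl_facts hM (fun v => x (some (i, v))) with h | h | h
    · exact Or.inl ⟨false, h⟩
    · exact Or.inl ⟨true, h⟩
    · exact Or.inr h
  have szf : ∀ {y : M.V → Bool} {b : Bool}, (∀ v, y v = b) → b = false → M.size y = 0 :=
    fun h hb => size_const_false (fun v => (h v).trans hb)
  have szt : ∀ {y : M.V → Bool} {b : Bool}, (∀ v, y v = b) → b = true →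
    M.size (fun v => !y v) = 0 := fun h hb => size_const_false (fun v => by rw [h v, hb]; rfl)
  have one : ∀ {y : M.V → Bool} {b : Bool}, (∀ v, y v = b) → M.cut y = 0 := fun h => cut_const h
  -- the case of one split copy
  have key : ∀ (C S S' : ℕ) (a b c r e0 e1 e2 e3 : Bool), 2 ≤ C →
      (4 ≤ C + (r.toNat + e0.toNat + e1.toNat + e2.toNat + e3.toNat) ∨ S = 1) →
      (4 + (r.toNat + e0.toNat + e1.toNat + e2.toNat + e3.toNat) ≤ C + 5 ∨ S' = 1) →
      (a = false → b = false → c = false → 2 ≤ S) → (a = true → b = true → c = true → 2 ≤ S') →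
      4 ≤ C + ((if a = r then 0 else 1) + (if a = b then 0 else 1) + (if a = c then 0 else 1)) +
        ((if e2 = b then 0 else 1) + (if e3 = b then 0 else 1) + (if b = c then 0 else 1) +
        (if b = c then 0 else 1) + (if c = e0 then 0 else 1) + (if c = e1 then 0 else 1)) := by
    intro C S S' a b c r e0 e1 e2 e3 hC hS hS' hf ht
    cases a <;> cases b <;> cases c <;> cases r <;> cases e0 <;> cases e1 <;> cases e2 <;>
      cases e3 <;> simp at hS hS' hf ht ⊢ <;> omega
  rcases cst 0 with ⟨b0, f0⟩ | ⟨f0, g0, k0⟩ <;> rcases cst 1 with ⟨b1, f1⟩ | ⟨f1, g1, k1⟩ <;>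
    rcases cst 2 with ⟨b2, f2⟩ | ⟨f2, g2, k2⟩
  · -- no split copy
    simp only [f0, f1, f2, one f0, one f1, one f2]
    have z0 := szf f0
    have z1 := szf f1
    have z2 := szf f2
    have y0 := szt f0
    have y1 := szt f1
    have y2 := szt f2
    generalize M.size (fun v => x (some (0, v))) = S0 at *
    generalize M.size (fun v => x (some (1, v))) = S1 at *
    generalize M.size (fun v => x (some (2, v))) = S2 at *
    generalize M.size (fun v => !x (some (0, v))) = S0' at *
    generalize M.size (fun v => !x (some (1, v))) = S1' at *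
    generalize M.size (fun v => !x (some (2, v))) = S2' at *
    generalize x none = a at *
    cases a <;> cases b0 <;> cases b1 <;> cases b2 <;>
      simp at h2 h2' z0 z1 z2 y0 y1 y2 ⊢ <;> omega
  · -- copy 2 split
    simp only [f0, f1, one f0, one f1]
    rw [u2] at g2 k2
    have h := key _ _ _ (x none) b0 b1 (x (some (2, M.r))) (x (some (2, M.e 0)))
      (x (some (2, M.e 1))) (x (some (2, M.e 2))) (x (some (2, M.e 3))) f2 g2 k2
      (fun ha hb hc => by
        rw [szf f0 hb, szf f1 hc, ha] at h2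
        simpa using h2)
      (fun ha hb hc => by
        rw [szt f0 hb, szt f1 hc, ha] at h2'
        simpa using h2')
    have eb : (if b1 = b0 then 0 else 1 : ℕ) = (if b0 = b1 then 0 else 1) := by
      cases b0 <;> cases b1 <;> rfl
    omega
  · -- copy 1 split
    simp only [f0, f2, one f0, one f2]
    rw [u1] at g1 k1
    have h := key _ _ _ (x none) b2 b0 (x (some (1, M.r))) (x (some (1, M.e 0)))
      (x (some (1, M.e 1))) (x (some (1, M.e 2))) (x (some (1, M.e 3))) f1 g1 k1
      (fun ha hb hc => by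
        rw [szf f0 hc, szf f2 hb, ha] at h2
        simpa using h2)
      (fun ha hb hc => by
        rw [szt f0 hc, szt f2 hb, ha] at h2'
        simpa using h2')
    omega
  · exact le_trans (by omega) (le_trans (Nat.le_add_right _ _) (Nat.le_add_right _ _))
  · -- copy 0 split
    simp only [f1, f2, one f1, one f2]
    rw [u0] at g0 k0
    have h := key _ _ _ (x none) b1 b2 (x (some (0, M.r))) (x (some (0, M.e 0)))
      (x (some (0, M.e 1))) (x (some (0, M.e 2))) (x (some (0, M.e 3))) f0 g0 k0
      (fun ha hb hc => by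
        rw [szf f1 hb, szf f2 hc, ha] at h2
        simpa using h2)
      (fun ha hb hc => by
        rw [szt f1 hb, szt f2 hc, ha] at h2'
        simpa using h2')
    omega
  · exact le_trans (by omega) (le_trans (Nat.le_add_right _ _) (Nat.le_add_right _ _))
  · exact le_trans (by omega) (le_trans (Nat.le_add_right _ _) (Nat.le_add_right _ _))
  · exact le_trans (by omega) (le_trans (Nat.le_add_right _ _) (Nat.le_add_right _ _))

end Pool.Agent.Helper37K9.Snark
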